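import Pool.Agent.MP_e7f0cc_co.Rules

/-! A verified checker for case trees on sign patterns of eight lines. -/

namespace Pool.Agent.MP_e7f0cc_co

structure Cfg where
  u : ℕ → E3
  m : ℕ → E3

def Cfg.r (c : Cfg) (i j : ℕ) : ℝ := rr (c.u i) (c.m i) (c.u j) (c.m j)

noncomputable def Cfg.D (c : Cfg) (i j k : ℕ) : ℝ := det3 (c.u i) (c.u j) (c.u k)

def Weak (c : Cfg) : Prop := ∀ i j, i < 8 → j < 8 → |c.r i j| = ‖cr (c.u i) (c.u j)‖

def Good (c : Cfg) : Prop := Weak c ∧ (∀ i j, i < 8 → j < 8 → i ≠ j → c.r i j ≠ 0) ∧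
  ∀ i j k, i < 8 → j < 8 → k < 8 → i ≠ j → i ≠ k → j ≠ k → c.D i j k ≠ 0

noncomputable def val (c : Cfg) (v : ℕ) : ℝ :=
  if v < 512 then c.D (v / 64) (v / 8 % 8) (v % 8) else c.r (v / 8 % 8) (v % 8)

def sg (b : ℕ) : ℝ := if b % 2 = 0 then 1 else -1

def Holds (c : Cfg) (l : ℕ) : Prop := 0 < sg l * val c (l / 2)

lemma sg_add (a b : ℕ) : sg (a + b) = sg a * sg b := by
  unfold sg
  rcases Nat.mod_two_eq_zero_or_one a with h | h <;> rcases Nat.mod_two_eq_zero_or_one b with h' | h' <;>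
    simp [Nat.add_mod, h, h']

lemma sg_mod (a : ℕ) : sg (a % 2) = sg a := by unfold sg; simp

lemma sg_two (a b : ℕ) : sg (2 * a + b) = sg b := by unfold sg; simp [Nat.add_mod]

lemma sg_abs (a : ℕ) : |sg a| = 1 := by unfold sg; split_ifs <;> simp

lemma sg_ne (a : ℕ) : sg a ≠ 0 := by unfold sg; split_ifs <;> simp

def dig (π i : ℕ) : ℕ := (π >>> (3 * i)) % 8

lemma dig_lt (π i : ℕ) : dig π i < 8 := Nat.mod_lt _ (by norm_num)

noncomputable def trans (c : Cfg) (π s g : ℕ) : Cfg where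
  u i := sg (s >>> i) • c.u (dig π i)
  m i := (sg g * sg (s >>> i)) • c.m (dig π i)

lemma trans_r (c : Cfg) (π s g i j : ℕ) : (trans c π s g).r i j
    = sg g * sg (s >>> i) * sg (s >>> j) * c.r (dig π i) (dig π j) := by
  simp only [Cfg.r, trans, rr, dt, PiLp.smul_apply, smul_eq_mul]; ring

lemma trans_D (c : Cfg) (π s g i j k : ℕ) : (trans c π s g).D i j k
    = sg (s >>> i) * sg (s >>> j) * sg (s >>> k) * c.D (dig π i) (dig π j) (dig π k) := by
  simp only [Cfg.D, trans, det3, dt, cr0, cr1, cr2, PiLp.smul_apply, smul_eq_mul]; ring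

lemma weak_trans {c : Cfg} (h : Weak c) (π s g : ℕ) : Weak (trans c π s g) := by
  intro i j _ _
  have e : cr ((trans c π s g).u i) ((trans c π s g).u j)
      = (sg (s >>> i) * sg (s >>> j)) • cr (c.u (dig π i)) (c.u (dig π j)) := by
    apply ext3 <;> simp only [trans, cr0, cr1, cr2, PiLp.smul_apply, smul_eq_mul] <;> ring
  rw [trans_r, e, norm_smul, Real.norm_eq_abs]
  simp only [abs_mul, sg_abs, one_mul]
  exact h _ _ (dig_lt _ _) (dig_lt _ _)

def injp (π : ℕ) : Bool :=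
  (List.range 8).all fun i => (List.range 8).all fun j => i == j || dig π i != dig π j

lemma good_trans {c : Cfg} (h : Good c) (π s g : ℕ) (hπ : injp π = true) :
    Good (trans c π s g) := by
  have hinj : ∀ i j, i < 8 → j < 8 → i ≠ j → dig π i ≠ dig π j := by
    intro i j hi hj hij
    simp only [injp, List.all_eq_true, List.mem_range, Bool.or_eq_true, beq_iff_eq, bne_iff_ne] at hπ
    exact (hπ i hi j hj).resolve_left hij
  refine ⟨weak_trans h.1 π s g, ?_, ?_⟩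
  · intro i j hi hj hij
    rw [trans_r]
    exact mul_ne_zero (mul_ne_zero (mul_ne_zero (sg_ne _) (sg_ne _)) (sg_ne _))
      (h.2.1 _ _ (dig_lt _ _) (dig_lt _ _) (hinj i j hi hj hij))
  · intro i j k hi hj hk h1 h2 h3
    rw [trans_D]
    exact mul_ne_zero (mul_ne_zero (mul_ne_zero (sg_ne _) (sg_ne _)) (sg_ne _))
      (h.2.2 _ _ _ (dig_lt _ _) (dig_lt _ _) (dig_lt _ _) (hinj i j hi hj h1) (hinj i k hi hk h2)
        (hinj j k hj hk h3))

def lD (i j k σ : ℕ) : ℕ := 2 * (64 * i + 8 * j + k) + σ % 2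

def lR (i j σ : ℕ) : ℕ := 2 * (512 + 8 * i + j) + σ % 2

lemma holds_lD (c : Cfg) {i j k : ℕ} (σ : ℕ) (hi : i < 8) (hj : j < 8) (hk : k < 8) :
    Holds c (lD i j k σ) ↔ 0 < sg σ * c.D i j k := by
  have e : lD i j k σ / 2 = 64 * i + 8 * j + k := by unfold lD; omega
  unfold Holds val
  rw [e, if_pos (by omega), show (64 * i + 8 * j + k) / 64 = i by omega,
    show (64 * i + 8 * j + k) / 8 % 8 = j by omega, show (64 * i + 8 * j + k) % 8 = k by omega,
    lD, sg_two, sg_mod]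

lemma holds_lR (c : Cfg) {i j : ℕ} (σ : ℕ) (hi : i < 8) (hj : j < 8) :
    Holds c (lR i j σ) ↔ 0 < sg σ * c.r i j := by
  have e : lR i j σ / 2 = 512 + 8 * i + j := by unfold lR; omega
  unfold Holds val
  rw [e, if_neg (by omega), show (512 + 8 * i + j) / 8 % 8 = i by omega,
    show (512 + 8 * i + j) % 8 = j by omega, lR, sg_two, sg_mod]

def tl (π s g l : ℕ) : ℕ :=
  if l / 2 < 512 then
    lD (dig π (l / 2 / 64)) (dig π (l / 2 / 8 % 8)) (dig π (l / 2 % 8))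
      (l + s >>> (l / 2 / 64) + s >>> (l / 2 / 8 % 8) + s >>> (l / 2 % 8))
  else
    lR (dig π (l / 2 / 8 % 8)) (dig π (l / 2 % 8)) (l + g + s >>> (l / 2 / 8 % 8) + s >>> (l / 2 % 8))

lemma holds_tl {c : Cfg} {π s g l : ℕ} (h : Holds c (tl π s g l)) : Holds (trans c π s g) l := by
  unfold tl at h
  unfold Holds val
  split_ifs at h ⊢
  · rw [holds_lD c _ (dig_lt _ _) (dig_lt _ _) (dig_lt _ _)] at h
    rw [trans_D]
    simp only [sg_add] at h
    linarith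
  · rw [holds_lR c _ (dig_lt _ _) (dig_lt _ _)] at h
    rw [trans_r]
    simp only [sg_add] at h
    linarith

def mk (v σ : ℕ) : ℕ :=
  if v < 512 then
    2 ^ lD (v / 64) (v / 8 % 8) (v % 8) σ ||| 2 ^ lD (v / 8 % 8) (v % 8) (v / 64) σ |||
    2 ^ lD (v % 8) (v / 64) (v / 8 % 8) σ ||| 2 ^ lD (v / 8 % 8) (v / 64) (v % 8) (σ + 1) |||
    2 ^ lD (v / 64) (v % 8) (v / 8 % 8) (σ + 1) ||| 2 ^ lD (v % 8) (v / 8 % 8) (v / 64) (σ + 1)
  else 2 ^ lR (v / 8 % 8) (v % 8) σ ||| 2 ^ lR (v % 8) (v / 8 % 8) σ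

def Inv (c : Cfg) (A : ℕ) : Prop := ∀ l, A.testBit l = true → Holds c l

lemma inv_or {c : Cfg} {A B : ℕ} (h1 : Inv c A) (h2 : Inv c B) : Inv c (A ||| B) := by
  intro l hl
  rw [Nat.testBit_lor, Bool.or_eq_true] at hl
  exact hl.elim (h1 l) (h2 l)

lemma inv_pow {c : Cfg} {l : ℕ} (h : Holds c l) : Inv c (2 ^ l) := by
  intro l' hl
  rw [Nat.testBit_two_pow] at hl
  have : l = l' := by simpa using hl
  rwa [← this]

lemma inv_mk {c : Cfg} {v σ : ℕ} (h : 0 < sg σ * val c v) : Inv c (mk v σ) := by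
  unfold mk
  unfold val at h
  have h1 : v / 8 % 8 < 8 := Nat.mod_lt _ (by norm_num)
  have h2 : v % 8 < 8 := Nat.mod_lt _ (by norm_num)
  have s1 : sg 1 = -1 := by simp [sg]
  split_ifs at h ⊢ with hv
  · have h0 : v / 64 < 8 := by omega
    refine inv_or (inv_or (inv_or (inv_or (inv_or ?_ ?_) ?_) ?_) ?_) ?_ <;> apply inv_pow <;>
      rw [holds_lD _ _ (by assumption) (by assumption) (by assumption)] <;>
      refine lt_of_lt_of_eq h ?_ <;>
      simp only [Cfg.D, det3, dt, cr0, cr1, cr2, sg_add, s1] <;> ring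
  · refine inv_or ?_ ?_ <;> apply inv_pow <;> rw [holds_lR _ _ (by assumption) (by assumption)]
    · exact h
    · refine lt_of_lt_of_eq h ?_
      simp only [Cfg.r, rr]; ring

def valid (v : ℕ) : Bool :=
  if v < 512 then v / 64 != v / 8 % 8 && v / 64 != v % 8 && v / 8 % 8 != v % 8
  else v / 8 % 8 != v % 8

lemma val_ne {c : Cfg} (h : Good c) {v : ℕ} (hv : valid v = true) : val c v ≠ 0 := by
  unfold valid at hv
  unfold val
  have h1 : v / 8 % 8 < 8 := Nat.mod_lt _ (by norm_num)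
  have h2 : v % 8 < 8 := Nat.mod_lt _ (by norm_num)
  split_ifs at hv ⊢ with hlt
  · simp only [Bool.and_eq_true, bne_iff_ne] at hv
    exact h.2.2 _ _ _ (by omega) h1 h2 hv.1.1 hv.1.2 hv.2
  · exact h.2.1 _ _ h1 h2 (by simpa using hv)

def leafOK (T : ℕ → List ℕ) (lim A w : ℕ) : Bool :=
  decide (w % 256 < lim) && (decide (w % 256 < 4) || injp (w / 131072)) &&
    (T (w % 256)).all fun l => A.testBit (tl (w / 131072) (w / 512 % 256) (w / 256 % 2) l)

def force (n : ℕ) (f : ℕ → Option ℕ) : Option ℕ :=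
  match n with
  | 0 => f 0
  | k + 1 => f (k + 1)

lemma force_eq (n : ℕ) (f : ℕ → Option ℕ) : force n f = f n := by cases n <;> rfl

def check (T : ℕ → List ℕ) (lim : ℕ) : ℕ → ℕ → ℕ → Option ℕ
  | 0, _, _ => none
  | f + 1, A, code =>
    force (code % 17592186044416) fun t => force (code / 17592186044416) fun rest =>
      if t % 2 = 0 then
        if valid (t / 2) then
          match force (A ||| mk (t / 2) 0) (fun A0 => check T lim f A0 rest) with
          | none => none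
          | some r => force (A ||| mk (t / 2) 1) (fun A1 => check T lim f A1 r)
        else none
      else if leafOK T lim A (t / 2) then some rest else none

def NoCfg (T : ℕ → List ℕ) (tg : ℕ) : Prop :=
  ∀ c : Cfg, Weak c → (4 ≤ tg → Good c) → (∀ l ∈ T tg, Holds c l) → False

theorem check_sound (T : ℕ → List ℕ) (lim : ℕ) (H : ∀ tg < lim, NoCfg T tg) {c : Cfg}
    (hc : Good c) : ∀ f A code r, Inv c A → check T lim f A code = some r → False := by
  intro f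
  induction f with
  | zero => intro A code r _ h; simp [check] at h
  | succ f ih =>
    intro A code r hA h
    simp only [check, force_eq] at h
    split_ifs at h with h1 h2 h3
    · split at h
      · simp at h
      · rename_i r' hr'
        rcases lt_or_gt_of_ne (val_ne hc h2) with h4 | h4
        · refine ih _ _ _ (inv_or hA (inv_mk ?_)) h
          simp [sg, h4]
        · refine ih _ _ _ (inv_or hA (inv_mk ?_)) hr'
          simpa [sg] using h4
    · simp only [leafOK, Bool.and_eq_true, decide_eq_true_eq, Bool.or_eq_true,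
        List.all_eq_true] at h3
      refine H _ h3.1.1 (trans c _ _ _) (weak_trans hc.1 _ _ _) (fun h4 => good_trans hc _ _ _ ?_)
        (fun l hl => holds_tl (hA _ (h3.2 l hl)))
      exact h3.1.2.resolve_left (by omega)

def start (ls : List ℕ) : ℕ := ls.foldr (fun l acc => acc ||| mk (l / 2) l) 0

lemma inv_start {c : Cfg} (ls : List ℕ) (h : ∀ l ∈ ls, Holds c l) : Inv c (start ls) := by
  induction ls with
  | nil => intro l hl; simp [start] at hl
  | cons a ls ih =>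
    exact inv_or (ih fun l hl => h l (List.mem_cons_of_mem _ hl)) (inv_mk (h a List.mem_cons_self))

def stepOK (T : ℕ → List ℕ) (tg code : ℕ) : Bool := (check T tg 40 (start (T tg)) code).isSome

theorem step_sound (T : ℕ → List ℕ) (tg code : ℕ) (h4 : 4 ≤ tg) (H : ∀ t < tg, NoCfg T t)
    (h : stepOK T tg code = true) : NoCfg T tg := by
  intro c _ hc hl
  obtain ⟨r, hr⟩ := Option.isSome_iff_exists.1 h
  exact check_sound T tg H (hc h4) _ _ _ r (inv_start _ hl) hr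

def allOK (T : ℕ → List ℕ) : ℕ → List ℕ → Bool
  | _, [] => true
  | tg, code :: cs => stepOK T tg code && allOK T (tg + 1) cs

theorem all_sound (T : ℕ → List ℕ) : ∀ (cs : List ℕ) (tg : ℕ), 4 ≤ tg → (∀ t < tg, NoCfg T t) →
    allOK T tg cs = true → ∀ t < tg + cs.length, NoCfg T t := by
  intro cs
  induction cs with
  | nil => intro tg _ H _; simpa using H
  | cons code cs ih =>
    intro tg h4 H h
    simp only [allOK, Bool.and_eq_true] at h
    have := ih (tg + 1) (by omega) (fun t ht => by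
      rcases Nat.lt_succ_iff_lt_or_eq.1 ht with h' | rfl
      · exact H t h'
      · exact step_sound T _ code h4 H h.1) h.2
    intro t ht
    exact this t (by simp only [List.length_cons] at ht; omega)

/-! The four rules. -/

def rule0 : List ℕ := [lD 0 1 2 0, lD 3 1 2 0, lD 0 3 2 0, lD 0 1 3 0, lR 0 1 0, lR 1 2 0, lR 2 3 1, lR 0 3 1]
def rule1 : List ℕ := [lD 0 1 2 0, lD 0 1 3 0, lD 0 1 4 0, lD 0 3 4 0, lD 0 2 4 1, lD 0 2 3 0]
def rule2 : List ℕ := [lD 0 1 2 0, lD 3 1 2 0, lD 0 3 2 0, lD 0 1 3 0, lD 4 1 2 0, lD 0 4 2 0,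
  lD 0 1 4 0, lD 0 3 4 0, lD 2 3 4 1, lR 0 1 0, lR 1 2 0, lR 0 4 0, lR 2 4 0, lR 1 4 0, lR 1 3 1]
def rule3 : List ℕ := [lD 0 1 2 0, lD 3 1 2 0, lD 0 3 2 0, lD 0 1 3 0, lD 0 1 4 0, lD 1 3 4 0,
  lD 0 3 4 1, lR 0 1 0, lR 0 2 0, lR 1 2 0, lR 3 4 0, lR 0 3 1, lR 1 4 1]

lemma self_zero {c : Cfg} (h : Weak c) (i : ℕ) (hi : i < 8) : dt (c.u i) (c.m i) = 0 := by
  have h1 := h i i hi hi
  have h2 : cr (c.u i) (c.u i) = 0 := by
    apply ext3 <;> simp only [cr0, cr1, cr2, PiLp.zero_apply] <;> ring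
  rw [h2, norm_zero, abs_eq_zero] at h1
  simp only [Cfg.r, rr] at h1
  linarith

lemma sg0 : sg 0 = 1 := by simp [sg]
lemma sg1 : sg 1 = -1 := by simp [sg]

lemma cfg_frame {c : Cfg} (h : Weak c) (d0 : 0 < c.D 0 1 2) (d1 : 0 < c.D 3 1 2) (d2 : 0 < c.D 0 3 2)
    (d3 : 0 < c.D 0 1 3) :
    ∃ (X Y Z : E3) (x y z α β γ : ℝ), 0 < x ∧ 0 < y ∧ 0 < z ∧ cr X Z ≠ 0 ∧
      c.D 4 1 2 = α * c.D 3 1 2 ∧ c.D 0 4 2 = β * c.D 0 3 2 ∧ c.D 0 1 4 = γ * c.D 0 1 3 ∧
      c.D 0 3 4 = (γ - β) * (y * z * c.D 0 1 2) ∧ c.D 2 3 4 = (β - α) * (x * y * c.D 0 1 2) ∧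
      c.D 1 3 4 = (α - γ) * (x * z * c.D 0 1 2) ∧
      |x * y * c.r 0 1| = ‖Z‖ ∧ |x * z * c.r 0 2| = ‖Y‖ ∧ |y * z * c.r 1 2| = ‖X‖ ∧
      |x * c.r 0 3| = ‖Z - Y‖ ∧ |y * c.r 1 3| = ‖X - Z‖ ∧ |z * c.r 2 3| = ‖Y - X‖ ∧
      |x * c.r 0 4| = ‖β • Z - γ • Y‖ ∧ |y * c.r 1 4| = ‖γ • X - α • Z‖ ∧
      |z * c.r 2 4| = ‖α • Y - β • X‖ ∧
      |c.r 3 4| = ‖(β - γ) • (Z - X) + (α - γ) • (Y - Z)‖ ∧
      x * y * c.r 0 1 + x * z * c.r 0 2 + y * z * c.r 1 2
        - x * c.r 0 3 - y * c.r 1 3 - z * c.r 2 3 = 0 ∧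
      α * β * (x * y * c.r 0 1) + α * γ * (x * z * c.r 0 2) + β * γ * (y * z * c.r 1 2)
        - α * (x * c.r 0 4) - β * (y * c.r 1 4) - γ * (z * c.r 2 4) = 0 ∧
      (α + β) * (x * y * c.r 0 1) + (α + γ) * (x * z * c.r 0 2)
        + (β + γ) * (y * z * c.r 1 2)
        - x * c.r 0 4 - y * c.r 1 4 - z * c.r 2 4
        - α * (x * c.r 0 3) - β * (y * c.r 1 3) - γ * (z * c.r 2 3)
        + c.r 3 4 = 0 :=
  frame (c.u 0) (c.u 1) (c.u 2) (c.u 3) (c.u 4) (c.m 0) (c.m 1) (c.m 2) (c.m 3) (c.m 4)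
    (self_zero h 0 (by norm_num)) (self_zero h 1 (by norm_num)) (self_zero h 2 (by norm_num))
    (self_zero h 3 (by norm_num)) (self_zero h 4 (by norm_num))
    (h 0 1 (by norm_num) (by norm_num)) (h 0 2 (by norm_num) (by norm_num))
    (h 1 2 (by norm_num) (by norm_num)) (h 0 3 (by norm_num) (by norm_num))
    (h 1 3 (by norm_num) (by norm_num)) (h 2 3 (by norm_num) (by norm_num))
    (h 0 4 (by norm_num) (by norm_num)) (h 1 4 (by norm_num) (by norm_num))
    (h 2 4 (by norm_num) (by norm_num)) (h 3 4 (by norm_num) (by norm_num)) d0 d1 d2 d3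

theorem rule0_ok (c : Cfg) (h : Weak c) (hl : ∀ l ∈ rule0, Holds c l) : False := by
  simp (disch := norm_num) only [rule0, List.forall_mem_cons, holds_lD, holds_lR, sg0, sg1, one_mul,
    neg_mul, neg_pos] at hl
  obtain ⟨d0, d1, d2, d3, s1, s2, s3, s4, -⟩ := hl
  obtain ⟨X, Y, Z, x, y, z, α, β, γ, hx, hy, hz, hXZ, -, -, -, -, -, -, a1, a2, a3, a4, a5, a6, -, -,
    -, -, e1, -, -⟩ := cfg_frame h d0 d1 d2 d3
  exact core_R4 hXZ a1 a2 a3 a4 a5 a6 e1 (by positivity) (by positivity)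
    (mul_neg_of_pos_of_neg hz s3) (mul_neg_of_pos_of_neg hx s4)

theorem rule1_ok (c : Cfg) (hl : ∀ l ∈ rule1, Holds c l) : False := by
  simp (disch := norm_num) only [rule1, List.forall_mem_cons, holds_lD, holds_lR, sg0, sg1, one_mul,
    neg_mul, neg_pos] at hl
  obtain ⟨d0, d1, d2, d3, d4, d5, -⟩ := hl
  have := gp_id (c.u 0) (c.u 1) (c.u 2) (c.u 3) (c.u 4)
  simp only [Cfg.D] at *
  nlinarith [mul_pos d0 d3, mul_pos d2 d5, mul_neg_of_pos_of_neg d1 d4]

theorem rule2_ok (c : Cfg) (h : Weak c) (hl : ∀ l ∈ rule2, Holds c l) : False := by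
  simp (disch := norm_num) only [rule2, List.forall_mem_cons, holds_lD, holds_lR, sg0, sg1, one_mul,
    neg_mul, neg_pos] at hl
  obtain ⟨d0, d1, d2, d3, -, d5, -, d7, d8, s1, s2, s3, s4, s5, s6, -⟩ := hl
  obtain ⟨X, Y, Z, x, y, z, α, β, γ, hx, hy, hz, hXZ, -, b2, -, b4, b5, -, a1, -, a3, a4, -, a6, a7, -,
    a9, -, e1, e2, -⟩ := cfg_frame h d0 d1 d2 d3
  rw [b2] at d5
  rw [b4] at d7
  rw [b5] at d8
  have p1 : 0 < y * z * c.D 0 1 2 := by positivity
  have p2 : 0 < x * y * c.D 0 1 2 := by positivity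
  exact core_T1 a1 a3 a4 a6 a7 a9 e1 e2 ((pos_iff_pos_of_mul_pos d5).2 d2)
    (sub_pos.1 ((pos_iff_pos_of_mul_pos d7).2 p1)) (sub_neg.1 (neg_of_mul_neg_left d8 p2.le))
    (by positivity) (by positivity) (by positivity) (by positivity) (by positivity)
    (mul_neg_of_pos_of_neg hy s6)

theorem rule3_ok (c : Cfg) (h : Weak c) (hl : ∀ l ∈ rule3, Holds c l) : False := by
  simp (disch := norm_num) only [rule3, List.forall_mem_cons, holds_lD, holds_lR, sg0, sg1, one_mul,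
    neg_mul, neg_pos] at hl
  obtain ⟨d0, d1, d2, d3, d4, d5, d6, s1, s2, s3, s4, s5, s6, -⟩ := hl
  obtain ⟨X, Y, Z, x, y, z, α, β, γ, hx, hy, hz, hXZ, -, -, b3, b4, -, b6, a1, a2, a3, a4, a5, a6, a7, a8,
    a9, a10, -, -, e3⟩ := cfg_frame h d0 d1 d2 d3
  rw [b3] at d4
  rw [b4] at d6
  rw [b6] at d5
  have p1 : 0 < y * z * c.D 0 1 2 := by positivity
  have p2 : 0 < x * z * c.D 0 1 2 := by positivity
  exact core_T2 hXZ a1 a2 a3 a4 a5 a6 a7 a8 a9 a10 e3 ((pos_iff_pos_of_mul_pos d4).2 d3)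
    (sub_pos.1 ((pos_iff_pos_of_mul_pos d5).2 p2)) (sub_neg.1 (neg_of_mul_neg_left d6 p1.le))
    (by positivity) (by positivity) (by positivity) s4 (mul_neg_of_pos_of_neg hx s5)
    (mul_neg_of_pos_of_neg hy s6)

end Pool.Agent.MP_e7f0cc_co
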