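import Pool.Agent.MP_e7f0cc_co.Rules

/-! Distance between two lines. -/

namespace Pool.Agent.MP_e7f0cc_co

lemma dt_le (u v : E3) : |dt u v| ≤ ‖u‖ * ‖v‖ := by
  have h := lagrange u v
  have h2 : dt u v ^ 2 ≤ (‖u‖ * ‖v‖) ^ 2 := by nlinarith [sq_nonneg ‖cr u v‖]
  exact abs_le_of_sq_le_sq' h2 (by positivity) |> abs_le.2

lemma cr_le (u v : E3) : ‖cr u v‖ ≤ ‖u‖ * ‖v‖ := by
  have h := lagrange u v
  have h2 : ‖cr u v‖ ^ 2 ≤ (‖u‖ * ‖v‖) ^ 2 := by nlinarith [sq_nonneg (dt u v)]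
  exact (pow_le_pow_iff_left₀ (by positivity) (by positivity) two_ne_zero).1 h2

lemma cr_eq_zero {u v : E3} (h : cr u v = 0) :
    u 1 * v 2 - u 2 * v 1 = 0 ∧ u 2 * v 0 - u 0 * v 2 = 0 ∧ u 0 * v 1 - u 1 * v 0 = 0 :=
  ⟨by rw [← cr0, h]; rfl, by rw [← cr1, h]; rfl, by rw [← cr2, h]; rfl⟩

lemma dt_pos {u : E3} (hu : u ≠ 0) : 0 < dt u u := by
  rw [← nsq]; have := norm_pos_iff.2 hu; positivity

lemma par_scale {u v : E3} (hu : u ≠ 0) (h : cr u v = 0) : ∃ t : ℝ, v = t • u := by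
  obtain ⟨h0, h1, h2⟩ := cr_eq_zero h
  have hp := (dt_pos hu).ne'
  refine ⟨dt u v / dt u u, ?_⟩
  apply ext3 <;> simp only [PiLp.smul_apply, smul_eq_mul] <;> field_simp <;> simp only [dt]
  · linear_combination (u 2) * h1 - (u 1) * h2
  · linear_combination (u 0) * h2 - (u 2) * h0
  · linear_combination (u 1) * h0 - (u 0) * h1

lemma cr_swap (u v : E3) : cr u v = -cr v u := by
  apply ext3 <;> simp only [cr0, cr1, cr2, PiLp.neg_apply] <;> ring

def dset (p u q v : E3) : Set ℝ := {d | ∃ s t : ℝ, d = ‖q - p + t • v - s • u‖}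

lemma skew_least {u v : E3} (p q : E3) (h : cr u v ≠ 0) :
    IsLeast (dset p u q v) (|dt (q - p) (cr u v)| / ‖cr u v‖) := by
  have hn := norm_pos_iff.2 h
  constructor
  · have hd : det3 u v (cr u v) = ‖cr u v‖ ^ 2 := by
      simp only [nsq, det3, dt, cr0, cr1, cr2]; ring
    have hd' : det3 u v (cr u v) ≠ 0 := by rw [hd]; positivity
    have e := cramer u v (cr u v) (q - p) hd'
    refine ⟨det3 (q - p) v (cr u v) / det3 u v (cr u v),
      -(det3 u (q - p) (cr u v) / det3 u v (cr u v)), ?_⟩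
    have e2 : q - p + -(det3 u (q - p) (cr u v) / det3 u v (cr u v)) • v
        - (det3 (q - p) v (cr u v) / det3 u v (cr u v)) • u
        = (det3 u v (q - p) / det3 u v (cr u v)) • cr u v := by
      nth_rewrite 1 [e]; module
    have e3 : det3 u v (q - p) = dt (q - p) (cr u v) := by
      simp only [det3, dt, cr0, cr1, cr2]; ring
    rw [e2, norm_smul, e3, hd, Real.norm_eq_abs, abs_div, abs_of_pos (by positivity : 0 < ‖cr u v‖ ^ 2)]
    field_simp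
  · rintro d ⟨s, t, rfl⟩
    rw [div_le_iff₀ hn]
    refine le_of_eq_of_le ?_ (dt_le _ _)
    congr 1
    simp only [dt, cr0, cr1, cr2, PiLp.add_apply, PiLp.sub_apply, PiLp.smul_apply, smul_eq_mul]; ring

lemma par_least {u v z : E3} (p q : E3) (hu : u ≠ 0) (hz : z ≠ 0) (h1 : cr z u = 0) (h2 : cr z v = 0) :
    IsLeast (dset p u q v) (‖cr (q - p) z‖ / ‖z‖) := by
  have hn := norm_pos_iff.2 hz
  obtain ⟨a, rfl⟩ := par_scale hz h1
  obtain ⟨b, rfl⟩ := par_scale hz h2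
  have ha : a ≠ 0 := by rintro rfl; simp at hu
  have key : ∀ s t : ℝ, cr (q - p + t • b • z - s • a • z) z = cr (q - p) z := by
    intro s t
    apply ext3 <;>
      simp only [cr0, cr1, cr2, PiLp.add_apply, PiLp.sub_apply, PiLp.smul_apply, smul_eq_mul] <;> ring
  constructor
  · refine ⟨dt (q - p) z / dt z z / a, 0, ?_⟩
    rw [← key (dt (q - p) z / dt z z / a) 0, div_eq_iff hn.ne']
    have h3 : dt (q - p + (0 : ℝ) • b • z - (dt (q - p) z / dt z z / a) • a • z) z = 0 := by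
      have hp := (dt_pos hz).ne'
      have : ∀ c : ℝ, dt (q - p + (0 : ℝ) • b • z - c • a • z) z = dt (q - p) z - c * a * dt z z := by
        intro c
        simp only [dt, PiLp.add_apply, PiLp.sub_apply, PiLp.smul_apply, smul_eq_mul]; ring
      rw [this]; field_simp; ring
    have h4 := lagrange (q - p + (0 : ℝ) • b • z - (dt (q - p) z / dt z z / a) • a • z) z
    rw [h3] at h4
    refine (pow_left_inj₀ (by positivity) (by positivity) two_ne_zero).1 ?_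
    rw [h4]; ring
  · rintro d ⟨s, t, rfl⟩
    rw [div_le_iff₀ hn, ← key s t]
    exact cr_le _ _

lemma line_param (ℓ : AffineSubspace ℝ E3) (h : Module.finrank ℝ ℓ.direction = 1) :
    ∃ p u : E3, u ≠ 0 ∧ ∀ x, x ∈ ℓ ↔ ∃ s : ℝ, x = p + s • u := by
  have hne : ℓ ≠ ⊥ := by
    rintro rfl
    rw [AffineSubspace.direction_bot] at h
    simp at h
  obtain ⟨p, hp⟩ := (AffineSubspace.nonempty_iff_ne_bot ℓ).2 hne
  obtain ⟨⟨u, hu⟩, h0, h1⟩ := finrank_eq_one_iff'.1 h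
  refine ⟨p, u, fun e => h0 (Subtype.ext e), fun x => ⟨fun hx => ?_, ?_⟩⟩
  · obtain ⟨c, hc⟩ := h1 ⟨x -ᵥ p, AffineSubspace.vsub_mem_direction hx hp⟩
    refine ⟨c, ?_⟩
    have : c • u = x - p := congrArg Subtype.val hc
    rw [this]; abel
  · rintro ⟨s, rfl⟩
    have := AffineSubspace.vadd_mem_of_mem_direction (ℓ.direction.smul_mem s hu) hp
    rwa [vadd_eq_add, add_comm] at this

lemma dset_eq {ℓ m : AffineSubspace ℝ E3} {p u q v : E3} (h1 : ∀ x, x ∈ ℓ ↔ ∃ s : ℝ, x = p + s • u)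
    (h2 : ∀ x, x ∈ m ↔ ∃ s : ℝ, x = q + s • v) :
    {d | ∃ x ∈ ℓ, ∃ y ∈ m, d = dist x y} = dset p u q v := by
  ext d
  constructor
  · rintro ⟨x, hx, y, hy, rfl⟩
    obtain ⟨s, rfl⟩ := (h1 x).1 hx
    obtain ⟨t, rfl⟩ := (h2 y).1 hy
    refine ⟨s, t, ?_⟩
    rw [dist_comm, dist_eq_norm]; congr 1; abel
  · rintro ⟨s, t, rfl⟩
    refine ⟨_, (h1 _).2 ⟨s, rfl⟩, _, (h2 _).2 ⟨t, rfl⟩, ?_⟩
    rw [dist_comm, dist_eq_norm]; congr 1; abel

end Pool.Agent.MP_e7f0cc_co
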