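import Pool.Agent.Mg.Fe7f0cc.G204ae6

/-! Sign rules for lines at pairwise distance one, for an arbitrary norm. -/

namespace Pool.Agent.MP_e7f0cc_co

variable {G : Type*} [NormedAddCommGroup G] [NormedSpace ℝ G]

lemma absN (L : E3 →ₗ[ℝ] G) {r t : ℝ} {w W : E3} (h : |r| = ‖L w‖) (hW : W = t • w) :
    |t * r| = ‖L W‖ := by
  rw [hW, map_smul, norm_smul, abs_mul, h, Real.norm_eq_abs]

lemma frameN (L : E3 →ₗ[ℝ] G) (a b c p ma mb mc mp : E3)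
    (sa : dt a ma = 0) (sb : dt b mb = 0) (sc : dt c mc = 0) (sp : dt p mp = 0)
    (hab : |rr a ma b mb| = ‖L (cr a b)‖) (hac : |rr a ma c mc| = ‖L (cr a c)‖)
    (hbc : |rr b mb c mc| = ‖L (cr b c)‖) (hap : |rr a ma p mp| = ‖L (cr a p)‖)
    (hbp : |rr b mb p mp| = ‖L (cr b p)‖) (hcp : |rr c mc p mp| = ‖L (cr c p)‖)
    (d0 : 0 < det3 a b c) (d1 : 0 < det3 p b c) (d2 : 0 < det3 a p c) (d3 : 0 < det3 a b p) :
    ∃ (X Y Z : G) (x y z : ℝ), 0 < x ∧ 0 < y ∧ 0 < z ∧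
      |x * y * rr a ma b mb| = ‖Z‖ ∧ |x * z * rr a ma c mc| = ‖Y‖ ∧ |y * z * rr b mb c mc| = ‖X‖ ∧
      |x * rr a ma p mp| = ‖Z - Y‖ ∧ |y * rr b mb p mp| = ‖X - Z‖ ∧ |z * rr c mc p mp| = ‖Y - X‖ ∧
      x * y * rr a ma b mb + x * z * rr a ma c mc + y * z * rr b mb c mc
        - x * rr a ma p mp - y * rr b mb p mp - z * rr c mc p mp = 0 ∧
      ∀ q mq : E3, dt q mq = 0 → |rr a ma q mq| = ‖L (cr a q)‖ → |rr b mb q mq| = ‖L (cr b q)‖ →
        |rr c mc q mq| = ‖L (cr c q)‖ → |rr p mp q mq| = ‖L (cr p q)‖ → ∃ α β γ : ℝ,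
      det3 q b c = α * det3 p b c ∧ det3 a q c = β * det3 a p c ∧ det3 a b q = γ * det3 a b p ∧
      det3 a p q = (γ - β) * (y * z * det3 a b c) ∧ det3 c p q = (β - α) * (x * y * det3 a b c) ∧
      det3 b p q = (α - γ) * (x * z * det3 a b c) ∧
      |x * rr a ma q mq| = ‖β • Z - γ • Y‖ ∧ |y * rr b mb q mq| = ‖γ • X - α • Z‖ ∧
      |z * rr c mc q mq| = ‖α • Y - β • X‖ ∧
      |rr p mp q mq| = ‖(β - γ) • (Z - X) + (α - γ) • (Y - Z)‖ ∧
      α * β * (x * y * rr a ma b mb) + α * γ * (x * z * rr a ma c mc)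
        + β * γ * (y * z * rr b mb c mc)
        - α * (x * rr a ma q mq) - β * (y * rr b mb q mq) - γ * (z * rr c mc q mq) = 0 ∧
      (α + β) * (x * y * rr a ma b mb) + (α + γ) * (x * z * rr a ma c mc)
        + (β + γ) * (y * z * rr b mb c mc)
        - x * rr a ma q mq - y * rr b mb q mq - z * rr c mc q mq
        - α * (x * rr a ma p mp) - β * (y * rr b mb p mp) - γ * (z * rr c mc p mp)
        + rr p mp q mq = 0 := by
  obtain ⟨x, y, z, hx, hy, hz, rfl⟩ : ∃ x y z : ℝ, 0 < x ∧ 0 < y ∧ 0 < z ∧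
      p = x • a + y • b + z • c :=
    ⟨_, _, _, div_pos d1 d0, div_pos d2 d0, div_pos d3 d0, cramer a b c p d0.ne'⟩
  refine ⟨L ((y * z) • cr b c), L ((x * z) • cr c a), L ((x * y) • cr a b), x, y, z, hx, hy, hz,
    absN L hab rfl, ?_, absN L hbc rfl, ?_, ?_, ?_, ?_, fun q mq sq haq hbq hcq hpq => ?_⟩
  · rw [← norm_neg, ← map_neg]
    refine absN L hac ?_
    apply ext3 <;> simp only [cr0, cr1, cr2, PiLp.smul_apply, PiLp.neg_apply, smul_eq_mul] <;> ring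
  iterate 3
    rw [← map_sub]
    refine absN L (by assumption) ?_
    apply ext3 <;> simp only [cr0, cr1, cr2, PiLp.smul_apply, PiLp.add_apply, PiLp.sub_apply,
      smul_eq_mul] <;> ring
  · simp only [rr, dt, PiLp.smul_apply, PiLp.add_apply, smul_eq_mul] at sa sb sc sp ⊢
    linear_combination (-x * x) * sa - y * y * sb - z * z * sc - sp
  obtain ⟨α, β, γ, rfl⟩ : ∃ α β γ : ℝ, q = (α * x) • a + (β * y) • b + (γ * z) • c := by
    refine ⟨det3 q b c / det3 a b c / x, det3 a q c / det3 a b c / y,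
      det3 a b q / det3 a b c / z, ?_⟩
    rw [div_mul_cancel₀ _ hx.ne', div_mul_cancel₀ _ hy.ne', div_mul_cancel₀ _ hz.ne']
    exact cramer a b c q d0.ne'
  refine ⟨α, β, γ, ?_, ?_, ?_, ?_, ?_, ?_, ?_, ?_, ?_, ?_, ?_, ?_⟩
  iterate 6
    simp only [det3, dt, cr0, cr1, cr2, PiLp.smul_apply, PiLp.add_apply, smul_eq_mul]; ring
  iterate 3
    rw [← map_smul, ← map_smul, ← map_sub]
    refine absN L (by assumption) ?_
    apply ext3 <;> simp only [cr0, cr1, cr2, PiLp.smul_apply, PiLp.add_apply, PiLp.sub_apply,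
      smul_eq_mul] <;> ring
  · rw [hpq, ← map_sub, ← map_sub, ← map_smul, ← map_smul, ← map_add]
    congr 2
    apply ext3 <;> simp only [cr0, cr1, cr2, PiLp.smul_apply, PiLp.add_apply, PiLp.sub_apply,
      smul_eq_mul] <;> ring
  · simp only [rr, dt, PiLp.smul_apply, PiLp.add_apply, smul_eq_mul] at sa sb sc sq ⊢
    linear_combination (-α * α * x * x) * sa - β * β * y * y * sb - γ * γ * z * z * sc - sq
  · simp only [rr, dt, PiLp.smul_apply, PiLp.add_apply, smul_eq_mul] at sa sb sc ⊢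
    linear_combination (-2 * α * x * x) * sa - 2 * β * y * y * sb - 2 * γ * z * z * sc

lemma nsmN (t : ℝ) (ht : 0 ≤ t) (w : G) : ‖t • w‖ = t * ‖w‖ := by
  rw [norm_smul, Real.norm_eq_abs, abs_of_nonneg ht]

lemma coreT1 {X Y Z : G} {α β γ ab ac bc ap bp cp aq bq cq : ℝ}
    (hab : |ab| = ‖Z‖) (hbc : |bc| = ‖X‖) (hap : |ap| = ‖Z - Y‖)
    (hcp : |cp| = ‖Y - X‖) (haq : |aq| = ‖β • Z - γ • Y‖) (hcq : |cq| = ‖α • Y - β • X‖)
    (e1 : ab + ac + bc - ap - bp - cp = 0)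
    (e2 : α * β * ab + α * γ * ac + β * γ * bc - α * aq - β * bq - γ * cq = 0)
    (hβ : 0 < β) (hγ : β < γ) (hα : β < α) (s1 : 0 < ab) (s2 : 0 < bc) (s3 : 0 < aq)
    (s4 : 0 < cq) (s5 : 0 < bq) (s6 : bp < 0) : False := by
  rw [abs_of_pos s1] at hab
  rw [abs_of_pos s2] at hbc
  rw [abs_of_pos s3] at haq
  rw [abs_of_pos s4] at hcq
  have hα0 : 0 < α := by linarith
  have hγ0 : 0 < γ := by linarith
  have t1 : γ * ‖Z - Y‖ ≤ ‖β • Z - γ • Y‖ + (γ - β) * ‖Z‖ := by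
    rw [← nsmN γ hγ0.le, ← nsmN (γ - β) (by linarith),
      show γ • (Z - Y) = (β • Z - γ • Y) + (γ - β) • Z by module]
    exact norm_add_le _ _
  have t2 : α * ‖Y - X‖ ≤ ‖α • Y - β • X‖ + (α - β) * ‖X‖ := by
    rw [← nsmN α hα0.le, ← nsmN (α - β) (by linarith),
      show α • (Y - X) = (α • Y - β • X) - (α - β) • X by module]
    exact norm_sub_le _ _
  have u1 : γ * ap ≤ aq + (γ - β) * ab := by
    have := mul_le_mul_of_nonneg_left (le_abs_self ap) hγ0.le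
    rw [hap] at this; rw [haq, hab]; linarith
  have u2 : α * cp ≤ cq + (α - β) * bc := by
    have := mul_le_mul_of_nonneg_left (le_abs_self cp) hα0.le
    rw [hcp] at this; rw [hcq, hbc]; linarith
  have v1 := mul_le_mul_of_nonneg_left u1 hα0.le
  have v2 := mul_le_mul_of_nonneg_left u2 hγ0.le
  have v3 : 0 < β * bq := mul_pos hβ s5
  have v4 : α * γ * bp < 0 := mul_neg_of_pos_of_neg (mul_pos hα0 hγ0) s6
  have e3 : α * γ * (ab + ac + bc - ap - bp - cp) = 0 := by rw [e1, mul_zero]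
  linarith

lemma coreT2 {X Y Z : G} {α β γ ab ac bc ap bp cp aq bq cq pq : ℝ}
    (hab : |ab| = ‖Z‖) (hac : |ac| = ‖Y‖) (hbc : |bc| = ‖X‖) (hap : |ap| = ‖Z - Y‖)
    (hbp : |bp| = ‖X - Z‖) (hcp : |cp| = ‖Y - X‖) (haq : |aq| = ‖β • Z - γ • Y‖)
    (hbq : |bq| = ‖γ • X - α • Z‖) (hcq : |cq| = ‖α • Y - β • X‖)
    (hpq : |pq| = ‖(β - γ) • (Z - X) + (α - γ) • (Y - Z)‖)
    (e3 : (α + β) * ab + (α + γ) * ac + (β + γ) * bc - aq - bq - cq - α * ap - β * bp - γ * cp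
      + pq = 0)
    (hγ : 0 < γ) (hα : γ < α) (hβ : γ < β) (s1 : 0 < ab) (s2 : 0 < ac) (s3 : 0 < bc)
    (s4 : 0 < pq) (s5 : ap < 0) (s6 : bq < 0) : False := by
  rw [abs_of_pos s1] at hab
  rw [abs_of_pos s2] at hac
  rw [abs_of_pos s3] at hbc
  rw [abs_of_pos s4] at hpq
  rw [abs_of_neg s5] at hap
  rw [abs_of_neg s6] at hbq
  have hα0 : 0 < α := by linarith
  have hβ0 : 0 < β := by linarith
  have t1 : ‖β • Z - γ • Y‖ ≤ β * ‖Z‖ + γ * ‖Y‖ := by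
    rw [← nsmN β hβ0.le, ← nsmN γ hγ.le]; exact norm_sub_le _ _
  have t2 : ‖α • Y - β • X‖ ≤ α * ‖Y‖ + β * ‖X‖ := by
    rw [← nsmN β hβ0.le, ← nsmN α hα0.le]; exact norm_sub_le _ _
  have t3 : γ * ‖X - Z‖ ≤ ‖γ • X - α • Z‖ + (α - γ) * ‖Z‖ := by
    rw [← nsmN γ hγ.le, ← nsmN (α - γ) (by linarith),
      show γ • (X - Z) = (γ • X - α • Z) + (α - γ) • Z by module]
    exact norm_add_le _ _
  have t4 : (β - γ) * ‖X - Z‖ ≤
      ‖(β - γ) • (Z - X) + (α - γ) • (Y - Z)‖ + (α - γ) * ‖Z - Y‖ := by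
    rw [← nsmN (β - γ) (by linarith), ← nsmN (α - γ) (by linarith),
      ← norm_neg ((β - γ) • (X - Z)),
      show -((β - γ) • (X - Z)) = ((β - γ) • (Z - X) + (α - γ) • (Y - Z)) + (α - γ) • (Z - Y) by
        module]
    exact norm_add_le _ _
  have t5 := mul_le_mul_of_nonneg_left (norm_sub_le X Z) hγ.le
  have t6 : ‖Y - X‖ ≤ ‖Z - Y‖ + ‖X - Z‖ := by
    rw [← norm_neg (Y - X), show -(Y - X) = (Z - Y) + (X - Z) by abel]
    exact norm_add_le _ _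
  have t7 : α * ‖X - Z‖ ≤ ‖γ • X - α • Z‖ + (α - γ) * ‖X‖ := by
    rw [← nsmN α hα0.le, ← nsmN (α - γ) (by linarith),
      show α • (X - Z) = (γ • X - α • Z) + (α - γ) • X by module]
    exact norm_add_le _ _
  have t8 := mul_le_mul_of_nonneg_left t6 hγ.le
  have u1 := le_abs_self aq
  have u2 := le_abs_self cq
  have u3 := mul_le_mul_of_nonneg_left (le_abs_self bp) hβ0.le
  have u4 := mul_le_mul_of_nonneg_left (le_abs_self cp) hγ.le
  rw [haq] at u1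
  rw [hcq] at u2
  rw [hbp] at u3
  rw [hcp] at u4
  have ha : ap = -‖Z - Y‖ := by linarith
  have hb : bq = -‖γ • X - α • Z‖ := by linarith
  rw [hab, hac, hbc, hpq, ha, hb] at e3
  have w1 : γ * (‖X‖ + ‖Z‖) ≤ γ * ‖X - Z‖ := by linarith
  have w2 := mul_le_mul_of_nonneg_left (le_of_mul_le_mul_left w1 hγ) (sub_pos.2 hα).le
  have w3 := mul_pos (sub_pos.2 hα) (hab ▸ s1)
  linarith

lemma l1pos {V W : G} (h : ‖V‖ + ‖W‖ ≤ ‖V + W‖) {s t : ℝ} (hs : 0 ≤ s) (ht : 0 ≤ t) :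
    ‖s • V + t • W‖ = s * ‖V‖ + t * ‖W‖ := by
  refine le_antisymm ((norm_add_le _ _).trans (by rw [nsmN s hs, nsmN t ht])) ?_
  have h1 : (s + t) * ‖V + W‖ ≤ ‖s • V + t • W‖ + t * ‖V‖ + s * ‖W‖ := by
    rw [← nsmN (s + t) (by linarith), ← nsmN t ht, ← nsmN s hs,
      show (s + t) • (V + W) = s • V + t • W + t • V + s • W by module]
    exact norm_add₃_le
  have h2 := mul_le_mul_of_nonneg_left h (add_nonneg hs ht)
  linarith

lemma l1all {V W : G} (h : ‖V‖ + ‖W‖ ≤ ‖V + W‖) (h' : ‖V‖ + ‖W‖ ≤ ‖V - W‖) (s t : ℝ) :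
    ‖s • V + t • W‖ = ‖V‖ * |s| + ‖W‖ * |t| := by
  have key : ∀ s t : ℝ, 0 ≤ s → ‖s • V + t • W‖ = ‖V‖ * |s| + ‖W‖ * |t| := by
    intro s t hs
    rcases le_total 0 t with ht | ht
    · rw [l1pos h hs ht, abs_of_nonneg hs, abs_of_nonneg ht]; ring
    · have := l1pos (V := V) (W := -W) (by rwa [norm_neg, ← sub_eq_add_neg]) hs (neg_nonneg.2 ht)
      rw [neg_smul_neg, norm_neg] at this
      rw [this, abs_of_nonneg hs, abs_of_nonpos ht]; ring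
  rcases le_total 0 s with hs | hs
  · exact key s t hs
  · rw [← norm_neg, ← abs_neg s, ← abs_neg t, ← key (-s) (-t) (neg_nonneg.2 hs)]
    congr 1
    module

/-- the data of a further line when four lines form a metric rectangle -/
def Q5 (A B α β γ aq bq cq pq : ℝ) : Prop :=
  |aq| = A * |β - γ| + B * |γ| ∧ |bq| = A * |α| + B * |γ| ∧ |cq| = A * |α| + B * |β - α| ∧
  |pq| = A * |β - γ| + B * |β - α| ∧ pq = aq + bq + cq ∧
  A * α * (β - γ) + B * γ * (β - α) = α * aq + β * bq + γ * cq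

lemma coreRect {X Y Z : G} {ab ac bc ap bp cp : ℝ}
    (hab : |ab| = ‖Z‖) (hac : |ac| = ‖Y‖) (hbc : |bc| = ‖X‖) (hap : |ap| = ‖Z - Y‖)
    (hbp : |bp| = ‖X - Z‖) (hcp : |cp| = ‖Y - X‖) (e1 : ab + ac + bc - ap - bp - cp = 0)
    (s1 : 0 < ab) (s2 : 0 < bc) (s3 : cp < 0) (s4 : ap < 0) : ac < 0 ∧
    ∀ α β γ aq bq cq pq : ℝ, |aq| = ‖β • Z - γ • Y‖ → |bq| = ‖γ • X - α • Z‖ →
      |cq| = ‖α • Y - β • X‖ → |pq| = ‖(β - γ) • (Z - X) + (α - γ) • (Y - Z)‖ →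
      α * β * ab + α * γ * ac + β * γ * bc - α * aq - β * bq - γ * cq = 0 →
      (α + β) * ab + (α + γ) * ac + (β + γ) * bc - aq - bq - cq - α * ap - β * bp - γ * cp
        + pq = 0 → Q5 ab bc α β γ aq bq cq pq := by
  rw [abs_of_pos s1] at hab
  rw [abs_of_pos s2] at hbc
  rw [abs_of_neg s3] at hcp
  rw [abs_of_neg s4] at hap
  have t1 : ‖Y‖ ≤ ‖X‖ + ‖Y - X‖ := by simpa using norm_add_le X (Y - X)
  have t2 : ‖Y‖ ≤ ‖Z‖ + ‖Z - Y‖ := by simpa using norm_sub_le Z (Z - Y)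
  have t3 := norm_sub_le X Z
  have t4 : ‖X - Z‖ ≤ ‖Y - X‖ + ‖Z - Y‖ := by
    have := norm_add_le (Y - X) (Z - Y)
    rwa [show Y - X + (Z - Y) = -(X - Z) by abel, norm_neg] at this
  have t5 := neg_abs_le ac
  have t6 := le_abs_self bp
  have a1 : ‖Y - X‖ = ‖Z‖ := by linarith
  have a2 : ‖Z - Y‖ = ‖X‖ := by linarith
  have a3 : ‖Y‖ = ‖Z‖ + ‖X‖ := by linarith
  have a4 : ‖X - Z‖ = ‖Z‖ + ‖X‖ := by linarith
  have b1 : ac = -(ab + bc) := by linarith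
  have b2 : bp = ab + bc := by linarith
  have b3 : ap = -bc := by linarith
  have b4 : cp = -ab := by linarith
  have two : ∀ (W a b c : G), W + W = a + b + c → 2 * ‖W‖ ≤ ‖a‖ + ‖b‖ + ‖c‖ := by
    intro W a b c h
    rw [← nsmN 2 (by norm_num), two_smul, h]
    exact norm_add₃_le
  have c1 := two (X - Z) (-(Z + (Z - Y))) X (-(Y - X)) (by abel)
  have c2 := two Y (Z + X) (Y - X) (-(Z - Y)) (by abel)
  have c3 := two (X - Z) (-(Y - X - X)) (-(Z - Y)) (-Z) (by abel)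
  have c4 := two Y (Y - X - (Z - Y)) X Z (by abel)
  simp only [norm_neg] at c1 c3 c2
  refine ⟨by linarith, fun α β γ aq bq cq pq h1 h2 h3 h4 e2 e3 => ⟨?_, ?_, ?_, ?_, ?_, ?_⟩⟩
  · rw [h1, show β • Z - γ • Y = (β - γ) • Z + γ • (Z - Y) by module,
      l1all (by linarith) (by rw [sub_sub_cancel]; linarith), a2, hab, hbc]
  · rw [h2, show γ • X - α • Z = (-α) • Z + γ • X by module,
      l1all (by linarith) (by rw [norm_sub_rev Z X]; linarith), abs_neg, hab, hbc]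
  · rw [h3, show α • Y - β • X = α • (Y - X) + (-(β - α)) • X by module,
      l1all (by rw [sub_add_cancel]; linarith) (by linarith), abs_neg, a1, hab, hbc]
  · rw [h4, show (β - γ) • (Z - X) + (α - γ) • (Y - Z) = (β - γ) • (Y - X) + (β - α) • (Z - Y) by
      module, l1all (by rw [show Y - X + (Z - Y) = -(X - Z) by abel, norm_neg]; linarith)
      (by linarith), a1, a2, hab, hbc]
  · rw [b1, b2, b3, b4] at e3
    linarith
  · rw [b1] at e2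
    linarith

section
variable {A B α β γ aq bq cq pq : ℝ}

lemma qN1 (h : Q5 A B α β γ aq bq cq pq) (s1 : 0 < aq) (s2 : 0 < cq) : 0 ≤ pq ∧ bq = -|bq| := by
  obtain ⟨h1, h2, h3, h4, h5, -⟩ := h
  rw [abs_of_pos s1] at h1
  rw [abs_of_pos s2] at h3
  have := neg_abs_le bq
  have := le_abs_self pq
  have := abs_nonneg pq
  constructor <;> linarith

lemma qN2 (hA : 0 < A) (hB : 0 < B) (h : Q5 A B α β γ aq bq cq pq) (s1 : 0 < aq) (s2 : 0 < cq)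
    (s3 : α < 0) (s4 : γ < 0) (s5 : pq ≠ 0) : False := by
  have hb := (qN1 h s1 s2).2
  obtain ⟨h1, h2, h3, h4, -, h6⟩ := h
  rw [abs_of_pos s1] at h1
  rw [abs_of_pos s2] at h3
  rw [abs_of_neg s3] at h2 h3
  rw [abs_of_neg s4] at h1 h2
  rw [hb, h1, h2, h3] at h6
  have p1 := mul_nonneg hA.le (abs_nonneg (β - γ))
  have p2 := mul_nonneg hB.le (abs_nonneg (β - α))
  have p3 := abs_pos.2 s5
  have e : -α * (A * |β - γ|) + -γ * (B * |β - α|) = 0 := by linarith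
  have q1 := mul_nonneg (neg_pos.2 s3).le p1
  have q2 := mul_nonneg (neg_pos.2 s4).le p2
  have r1 := (mul_eq_zero.1 (show -α * (A * |β - γ|) = 0 by linarith)).resolve_left (by linarith)
  have r2 := (mul_eq_zero.1 (show -γ * (B * |β - α|) = 0 by linarith)).resolve_left (by linarith)
  linarith

lemma qN3 (hA : 0 < A) (hB : 0 < B) (h : Q5 A B α β γ aq bq cq pq) (s1 : 0 < aq) (s2 : 0 < bq)
    (s3 : cq < 0) (s4 : 0 < pq) (s5 : 0 < γ) :
    (0 < β - α → α < 0 → False) ∧ (0 < β - α → 0 < α - γ → False) ∧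
      (β - α < 0 → 0 < β → False) := by
  obtain ⟨h1, h2, h3, h4, h5, h6⟩ := h
  rw [abs_of_pos s1] at h1
  rw [abs_of_pos s2] at h2
  rw [abs_of_neg s3] at h3
  rw [abs_of_pos s4] at h4
  rw [abs_of_pos s5] at h1 h2
  have hk : |β - α| = γ := mul_left_cancel₀ hB.ne' (by linarith)
  have hc : cq = -(A * |α| + B * γ) := by rw [← hk]; linarith
  rw [h1, h2, hc] at h6
  have p0 := mul_pos hB (mul_pos s5 s5)
  refine ⟨fun a1 a2 => ?_, fun a1 a2 => ?_, fun a1 a2 => ?_⟩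
  · rw [abs_of_pos a1] at hk
    obtain rfl : β = α + γ := by linarith
    rw [add_sub_cancel_right, abs_of_neg a2] at h6
    have p1 := mul_pos hA (mul_pos_of_neg_of_neg a2 a2)
    have p2 := mul_pos hB (mul_pos (neg_pos.2 a2) s5)
    linarith
  · rw [abs_of_pos a1] at hk
    obtain rfl : β = α + γ := by linarith
    have a3 : 0 < α := by linarith
    rw [add_sub_cancel_right, abs_of_pos a3] at h6
    have p1 := mul_pos hA (mul_pos a3 a3)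
    have p2 := mul_pos hB (mul_pos a2 s5)
    linarith
  · rw [abs_of_neg a1] at hk
    obtain rfl : α = β + γ := by linarith
    have a3 : 0 < β + γ := by linarith
    rw [abs_of_pos a3] at h6
    have p1 := mul_nonneg a3.le (mul_nonneg hA.le (abs_nonneg (β - γ)))
    have p2 := mul_pos hB (mul_pos a2 s5)
    linarith

lemma qE (h : Q5 A B α β γ aq bq cq pq) (s1 : 0 < aq) (s2 : 0 < cq) (s3 : 0 < γ) (s4 : β - α < 0)
    (s5 : 0 < α) (s6 : γ - β < 0) : A * α * (β - γ) + 3 * B * γ * (β - α) = 0 := by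
  have hb := (qN1 h s1 s2).2
  obtain ⟨h1, h2, h3, -, -, h6⟩ := h
  rw [abs_of_pos s1, abs_of_pos s3, abs_of_pos (show 0 < β - γ by linarith)] at h1
  rw [abs_of_pos s2, abs_of_pos s5, abs_of_neg s4] at h3
  rw [abs_of_pos s5, abs_of_pos s3] at h2
  rw [hb, h1, h2, h3] at h6
  linarith

end

lemma bil {A B α β γ a b c : ℝ} (hA : 0 < A) (hB : 0 < B)
    (h1 : A * α * (β - γ) + 3 * B * γ * (β - α) = 0)
    (h2 : A * a * (b - c) + 3 * B * c * (b - a) = 0) (p1 : 0 < α - β + γ) (p2 : 0 < a - b + c) :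
    A * (α * (b - c) + a * (β - γ)) + 3 * B * (γ * (b - a) + c * (β - α)) ≤ 0 := by
  by_contra hc
  have q := mul_pos (mul_pos p1 p2) (not_le.1 hc)
  have q1 := mul_nonneg hA.le (sq_nonneg ((a - b + c) * α - (α - β + γ) * a))
  have q2 := mul_nonneg hB.le (sq_nonneg ((a - b + c) * γ - (α - β + γ) * c))
  have : (α - β + γ) * (a - b + c) *
      (A * (α * (b - c) + a * (β - γ)) + 3 * B * (γ * (b - a) + c * (β - α))) +
      A * ((a - b + c) * α - (α - β + γ) * a) ^ 2 +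
      3 * (B * ((a - b + c) * γ - (α - β + γ) * c) ^ 2) = 0 := by
    linear_combination (a - b + c) ^ 2 * h1 + (α - β + γ) ^ 2 * h2
  linarith

lemma ell {A B α β γ a b c a' b' c' m l l₁ l₂ : ℝ} (hA : 0 < A) (hB : 0 < B)
    (h0 : A * α * (β - γ) + 3 * B * γ * (β - α) = 0)
    (h1 : A * a * (b - c) + 3 * B * c * (b - a) = 0)
    (h2 : A * a' * (b' - c') + 3 * B * c' * (b' - a') = 0) (p0 : 0 < α - β + γ)
    (p1 : 0 < a - b + c) (p2 : 0 < a' - b' + c') (s1 : 0 < α) (s2 : 0 < β) (s3 : 0 < γ)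
    (hl : 0 < l) (hl₁ : 0 < l₁) (hl₂ : 0 < l₂) (e1 : m * α = l + l₁ * a + l₂ * a')
    (e2 : m * β = l₁ * b + l₂ * b') (e3 : m * γ = l₁ * c + l₂ * c') : False := by
  have q1 := mul_nonneg hl₁.le (neg_nonneg.2 (bil hA hB h0 h1 p0 p1))
  have q2 := mul_nonneg hl₂.le (neg_nonneg.2 (bil hA hB h0 h2 p0 p2))
  have q3 : A * (β - γ) - 3 * B * γ < 0 := by
    have q4 := mul_pos hB (mul_pos s2 s3)
    have : (A * (β - γ) - 3 * B * γ) * α < 0 := by linarith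
    exact neg_of_mul_neg_left this s1.le
  have q5 := mul_neg_of_pos_of_neg hl q3
  have : l * (A * (β - γ) - 3 * B * γ) +
      l₁ * (A * (α * (b - c) + a * (β - γ)) + 3 * B * (γ * (b - a) + c * (β - α))) +
      l₂ * (A * (α * (b' - c') + a' * (β - γ)) + 3 * B * (γ * (b' - a') + c' * (β - α))) = 0 := by
    linear_combination 2 * m * h0 - (A * (β - γ) - 3 * B * γ) * e1 - (A * α + 3 * B * γ) * e2
      - (3 * B * (β - α) - A * α) * e3
  linarith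

/-! Configurations. -/

def WeakN (L : E3 →ₗ[ℝ] G) (c : Cfg) : Prop :=
  ∀ i j, i < 8 → j < 8 → |c.r i j| = ‖L (cr (c.u i) (c.u j))‖

def Gen (c : Cfg) : Prop := (∀ i j, i < 8 → j < 8 → i ≠ j → c.r i j ≠ 0) ∧
  ∀ i j k, i < 8 → j < 8 → k < 8 → i ≠ j → i ≠ k → j ≠ k → c.D i j k ≠ 0

variable {L : E3 →ₗ[ℝ] G}

lemma weakN_trans {c : Cfg} (h : WeakN L c) (π s g : ℕ) : WeakN L (trans c π s g) := by
  intro i j _ _
  have e : cr ((trans c π s g).u i) ((trans c π s g).u j)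
      = (sg (s >>> i) * sg (s >>> j)) • cr (c.u (dig π i)) (c.u (dig π j)) := by
    apply ext3 <;> simp only [trans, cr0, cr1, cr2, PiLp.smul_apply, smul_eq_mul] <;> ring
  rw [trans_r, e, map_smul, norm_smul, Real.norm_eq_abs]
  simp only [abs_mul, sg_abs, one_mul]
  exact h _ _ (dig_lt _ _) (dig_lt _ _)

lemma gen_trans {c : Cfg} (h : Gen c) (π s g : ℕ) (hπ : injp π = true) : Gen (trans c π s g) := by
  have hinj : ∀ i j, i < 8 → j < 8 → i ≠ j → dig π i ≠ dig π j := by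
    intro i j hi hj hij
    simp only [injp, List.all_eq_true, List.mem_range, Bool.or_eq_true, beq_iff_eq,
      bne_iff_ne] at hπ
    exact (hπ i hi j hj).resolve_left hij
  refine ⟨?_, ?_⟩
  · intro i j hi hj hij
    rw [trans_r]
    exact mul_ne_zero (mul_ne_zero (mul_ne_zero (sg_ne _) (sg_ne _)) (sg_ne _))
      (h.1 _ _ (dig_lt _ _) (dig_lt _ _) (hinj i j hi hj hij))
  · intro i j k hi hj hk h1 h2 h3
    rw [trans_D]
    exact mul_ne_zero (mul_ne_zero (mul_ne_zero (sg_ne _) (sg_ne _)) (sg_ne _))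
      (h.2 _ _ _ (dig_lt _ _) (dig_lt _ _) (dig_lt _ _) (hinj i j hi hj h1) (hinj i k hi hk h2)
        (hinj j k hj hk h3))

lemma val_neN {c : Cfg} (h : Gen c) {v : ℕ} (hv : valid v = true) : val c v ≠ 0 := by
  unfold valid at hv
  unfold val
  have h1 : v / 8 % 8 < 8 := Nat.mod_lt _ (by norm_num)
  have h2 : v % 8 < 8 := Nat.mod_lt _ (by norm_num)
  split_ifs at hv ⊢ with hlt
  · simp only [Bool.and_eq_true, bne_iff_ne] at hv
    exact h.2 _ _ _ (by omega) h1 h2 hv.1.1 hv.1.2 hv.2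
  · exact h.1 _ _ h1 h2 (by simpa using hv)

def NoN (L : E3 →ₗ[ℝ] G) (T : ℕ → List ℕ) (tg : ℕ) : Prop :=
  ∀ c : Cfg, WeakN L c → Gen c → ∀ π s g, (tg < 4 ∨ injp π = true) →
    (∀ l ∈ T tg, Holds (trans c π s g) l) → False

theorem check_soundN (T : ℕ → List ℕ) (lim : ℕ) (H : ∀ tg < lim, NoN L T tg) {c : Cfg}
    (hw : WeakN L c) (hc : Gen c) :
    ∀ f A code r, Inv c A → check T lim f A code = some r → False := by
  intro f
  induction f with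
  | zero => intro A code r _ h; simp [check] at h
  | succ f ih =>
    intro A code r hA h
    simp only [check, force_eq] at h
    split_ifs at h with h1 h2 h3
    · split at h
      · simp at h
      · rename_i r' hr'
        rcases lt_or_gt_of_ne (val_neN hc h2) with h4 | h4
        · refine ih _ _ _ (inv_or hA (inv_mk ?_)) h
          simp [sg, h4]
        · refine ih _ _ _ (inv_or hA (inv_mk ?_)) hr'
          simpa [sg] using h4
    · simp only [leafOK, Bool.and_eq_true, decide_eq_true_eq, Bool.or_eq_true,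
        List.all_eq_true] at h3
      exact H _ h3.1.1 c hw hc _ _ _ h3.1.2 (fun l hl => holds_tl (hA _ (h3.2 l hl)))

theorem uptoN {T : ℕ → List ℕ} {n code : ℕ} (h : stepOK T n code = true) (h4 : 4 ≤ n)
    (H : ∀ t < n, NoN L T t) : ∀ t < n + 1, NoN L T t := by
  intro t ht
  rcases Nat.lt_succ_iff_lt_or_eq.1 ht with h' | rfl
  · exact H t h'
  · intro c hw hc π s g hπ hl
    obtain ⟨r, hr⟩ := Option.isSome_iff_exists.1 h
    exact check_soundN T t H (weakN_trans hw π s g)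
      (gen_trans hc π s g (hπ.resolve_left (by omega))) _ _ _ r (inv_start _ hl) hr

lemma self_zeroN {c : Cfg} (h : WeakN L c) (i : ℕ) (hi : i < 8) : dt (c.u i) (c.m i) = 0 := by
  have h1 := h i i hi hi
  have h2 : cr (c.u i) (c.u i) = 0 := by
    apply ext3 <;> simp only [cr0, cr1, cr2, PiLp.zero_apply] <;> ring
  rw [h2, map_zero, norm_zero, abs_eq_zero] at h1
  simp only [Cfg.r, rr] at h1
  linarith

lemma cfgN {c : Cfg} (h : WeakN L c) (d0 : 0 < c.D 0 1 2) (d1 : 0 < c.D 3 1 2)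
    (d2 : 0 < c.D 0 3 2) (d3 : 0 < c.D 0 1 3) :
    ∃ (X Y Z : G) (x y z : ℝ), 0 < x ∧ 0 < y ∧ 0 < z ∧
      |x * y * c.r 0 1| = ‖Z‖ ∧ |x * z * c.r 0 2| = ‖Y‖ ∧ |y * z * c.r 1 2| = ‖X‖ ∧
      |x * c.r 0 3| = ‖Z - Y‖ ∧ |y * c.r 1 3| = ‖X - Z‖ ∧ |z * c.r 2 3| = ‖Y - X‖ ∧
      x * y * c.r 0 1 + x * z * c.r 0 2 + y * z * c.r 1 2
        - x * c.r 0 3 - y * c.r 1 3 - z * c.r 2 3 = 0 ∧ ∀ k < 8, ∃ α β γ : ℝ,
      c.D k 1 2 = α * c.D 3 1 2 ∧ c.D 0 k 2 = β * c.D 0 3 2 ∧ c.D 0 1 k = γ * c.D 0 1 3 ∧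
      c.D 0 3 k = (γ - β) * (y * z * c.D 0 1 2) ∧ c.D 2 3 k = (β - α) * (x * y * c.D 0 1 2) ∧
      c.D 1 3 k = (α - γ) * (x * z * c.D 0 1 2) ∧
      |x * c.r 0 k| = ‖β • Z - γ • Y‖ ∧ |y * c.r 1 k| = ‖γ • X - α • Z‖ ∧
      |z * c.r 2 k| = ‖α • Y - β • X‖ ∧
      |c.r 3 k| = ‖(β - γ) • (Z - X) + (α - γ) • (Y - Z)‖ ∧
      α * β * (x * y * c.r 0 1) + α * γ * (x * z * c.r 0 2) + β * γ * (y * z * c.r 1 2)
        - α * (x * c.r 0 k) - β * (y * c.r 1 k) - γ * (z * c.r 2 k) = 0 ∧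
      (α + β) * (x * y * c.r 0 1) + (α + γ) * (x * z * c.r 0 2)
        + (β + γ) * (y * z * c.r 1 2)
        - x * c.r 0 k - y * c.r 1 k - z * c.r 2 k
        - α * (x * c.r 0 3) - β * (y * c.r 1 3) - γ * (z * c.r 2 3)
        + c.r 3 k = 0 := by
  obtain ⟨X, Y, Z, x, y, z, hx, hy, hz, a1, a2, a3, a4, a5, a6, e1, hq⟩ :=
    frameN L (c.u 0) (c.u 1) (c.u 2) (c.u 3) (c.m 0) (c.m 1) (c.m 2) (c.m 3)
    (self_zeroN h 0 (by norm_num)) (self_zeroN h 1 (by norm_num)) (self_zeroN h 2 (by norm_num))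
    (self_zeroN h 3 (by norm_num))
    (h 0 1 (by norm_num) (by norm_num)) (h 0 2 (by norm_num) (by norm_num))
    (h 1 2 (by norm_num) (by norm_num)) (h 0 3 (by norm_num) (by norm_num))
    (h 1 3 (by norm_num) (by norm_num)) (h 2 3 (by norm_num) (by norm_num)) d0 d1 d2 d3
  exact ⟨X, Y, Z, x, y, z, hx, hy, hz, a1, a2, a3, a4, a5, a6, e1, fun k hk =>
    hq (c.u k) (c.m k) (self_zeroN h k hk) (h 0 k (by norm_num) hk) (h 1 k (by norm_num) hk)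
      (h 2 k (by norm_num) hk) (h 3 k (by norm_num) hk)⟩

theorem rule2N (c : Cfg) (h : WeakN L c) (hl : ∀ l ∈ rule2, Holds c l) : False := by
  simp (disch := norm_num) only [rule2, List.forall_mem_cons, holds_lD, holds_lR, sg0, sg1, one_mul,
    neg_mul, neg_pos] at hl
  obtain ⟨d0, d1, d2, d3, -, d5, -, d7, d8, s1, s2, s3, s4, s5, s6, -⟩ := hl
  obtain ⟨X, Y, Z, x, y, z, hx, hy, hz, a1, -, a3, a4, -, a6, e1, hq⟩ := cfgN h d0 d1 d2 d3
  obtain ⟨α, β, γ, -, b2, -, b4, b5, -, a7, -, a9, -, e2, -⟩ := hq 4 (by norm_num)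
  rw [b2] at d5
  rw [b4] at d7
  rw [b5] at d8
  have p1 : 0 < y * z * c.D 0 1 2 := by positivity
  have p2 : 0 < x * y * c.D 0 1 2 := by positivity
  exact coreT1 a1 a3 a4 a6 a7 a9 e1 e2 ((pos_iff_pos_of_mul_pos d5).2 d2)
    (sub_pos.1 ((pos_iff_pos_of_mul_pos d7).2 p1)) (sub_neg.1 (neg_of_mul_neg_left d8 p2.le))
    (by positivity) (by positivity) (by positivity) (by positivity) (by positivity)
    (mul_neg_of_pos_of_neg hy s6)

theorem rule3N (c : Cfg) (h : WeakN L c) (hl : ∀ l ∈ rule3, Holds c l) : False := by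
  simp (disch := norm_num) only [rule3, List.forall_mem_cons, holds_lD, holds_lR, sg0, sg1, one_mul,
    neg_mul, neg_pos] at hl
  obtain ⟨d0, d1, d2, d3, d4, d5, d6, s1, s2, s3, s4, s5, s6, -⟩ := hl
  obtain ⟨X, Y, Z, x, y, z, hx, hy, hz, a1, a2, a3, a4, a5, a6, -, hq⟩ := cfgN h d0 d1 d2 d3
  obtain ⟨α, β, γ, -, -, b3, b4, -, b6, a7, a8, a9, a10, -, e3⟩ := hq 4 (by norm_num)
  rw [b3] at d4
  rw [b4] at d6
  rw [b6] at d5
  have p1 : 0 < y * z * c.D 0 1 2 := by positivity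
  have p2 : 0 < x * z * c.D 0 1 2 := by positivity
  exact coreT2 a1 a2 a3 a4 a5 a6 a7 a8 a9 a10 e3 ((pos_iff_pos_of_mul_pos d4).2 d3)
    (sub_pos.1 ((pos_iff_pos_of_mul_pos d5).2 p2)) (sub_neg.1 (neg_of_mul_neg_left d6 p1.le))
    (by positivity) (by positivity) (by positivity) s4 (mul_neg_of_pos_of_neg hx s5)
    (mul_neg_of_pos_of_neg hy s6)

/-- `a` and `b` have the same sign -/
def Sm (a b : ℝ) : Prop := ∃ t, 0 < t ∧ a = b * t

lemma Sm.pos {a b : ℝ} (h : Sm a b) (ha : 0 < a) : 0 < b := by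
  obtain ⟨t, ht, rfl⟩ := h
  exact (pos_iff_pos_of_mul_pos ha).2 ht

lemma Sm.neg {a b : ℝ} (h : Sm a b) (ha : a < 0) : b < 0 := by
  obtain ⟨t, ht, rfl⟩ := h
  exact neg_of_mul_neg_left ha ht.le

lemma sm_of {a t : ℝ} (ht : 0 < t) : Sm a (t * a) := ⟨t⁻¹, inv_pos.2 ht, by field_simp⟩

theorem rectN {c : Cfg} (h : WeakN L c) (hl : ∀ l ∈ rule0, Holds c l) : c.r 0 2 < 0 ∧
    0 < c.D 0 1 2 ∧ 0 < c.D 3 1 2 ∧ 0 < c.D 0 3 2 ∧ 0 < c.D 0 1 3 ∧
    ∃ A B : ℝ, 0 < A ∧ 0 < B ∧ ∀ k < 8, ∃ α β γ aq bq cq : ℝ,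
      c.D k 1 2 = α * c.D 3 1 2 ∧ c.D 0 k 2 = β * c.D 0 3 2 ∧ c.D 0 1 k = γ * c.D 0 1 3 ∧
      Sm (c.D k 1 2) α ∧ Sm (c.D 0 k 2) β ∧ Sm (c.D 0 1 k) γ ∧ Sm (c.D 0 3 k) (γ - β) ∧
      Sm (c.D 2 3 k) (β - α) ∧ Sm (c.D 1 3 k) (α - γ) ∧ Sm (c.r 0 k) aq ∧ Sm (c.r 1 k) bq ∧
      Sm (c.r 2 k) cq ∧ Q5 A B α β γ aq bq cq (c.r 3 k) := by
  simp (disch := norm_num) only [rule0, List.forall_mem_cons, holds_lD, holds_lR, sg0, sg1, one_mul,
    neg_mul, neg_pos] at hl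
  obtain ⟨d0, d1, d2, d3, s1, s2, s3, s4, -⟩ := hl
  obtain ⟨X, Y, Z, x, y, z, hx, hy, hz, a1, a2, a3, a4, a5, a6, e1, hq⟩ := cfgN h d0 d1 d2 d3
  obtain ⟨r1, r2⟩ := coreRect a1 a2 a3 a4 a5 a6 e1 (by positivity) (by positivity)
    (mul_neg_of_pos_of_neg hz s3) (mul_neg_of_pos_of_neg hx s4)
  refine ⟨neg_of_mul_neg_left (b := x * z) (by linarith) (by positivity), d0, d1, d2, d3,
    x * y * c.r 0 1, y * z * c.r 1 2, by positivity, by positivity, fun k hk => ?_⟩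
  obtain ⟨α, β, γ, b1, b2, b3, b4, b5, b6, a7, a8, a9, a10, e2, e3⟩ := hq k hk
  exact ⟨α, β, γ, _, _, _, b1, b2, b3, ⟨_, d1, b1⟩, ⟨_, d2, b2⟩, ⟨_, d3, b3⟩,
    ⟨_, by positivity, b4⟩, ⟨_, by positivity, b5⟩, ⟨_, by positivity, b6⟩, sm_of hx, sm_of hy,
    sm_of hz, r2 _ _ _ _ _ _ _ a7 a8 a9 a10 e2 e3⟩

def nr0 : List ℕ := rule0 ++ [lR 0 2 0]
def nr4 : List ℕ := rule0 ++ [lR 0 4 0, lR 2 4 0, lR 3 4 1]
def nr5 : List ℕ := rule0 ++ [lR 0 4 0, lR 2 4 0, lD 4 1 2 1, lD 0 1 4 1]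
def nr6 : List ℕ :=
  rule0 ++ [lR 0 4 0, lR 1 4 0, lR 2 4 1, lR 3 4 0, lD 0 1 4 0, lD 2 3 4 0, lD 4 1 2 1]
def nr7 : List ℕ :=
  rule0 ++ [lR 0 4 0, lR 1 4 0, lR 2 4 1, lR 3 4 0, lD 0 1 4 0, lD 2 3 4 0, lD 1 3 4 0]
def nr8 : List ℕ :=
  rule0 ++ [lR 0 4 0, lR 1 4 0, lR 2 4 1, lR 3 4 0, lD 0 1 4 0, lD 2 3 4 1, lD 0 4 2 0]
def arc (k : ℕ) : List ℕ := [lR 0 k 0, lR 2 k 0, lD 0 1 k 0, lD 2 3 k 1, lD k 1 2 0, lD 0 3 k 1]
def nr9 : List ℕ :=
  rule0 ++ (arc 4 ++ (arc 5 ++ (arc 6 ++ [lD 0 4 6 0, lD 5 4 6 0, lD 0 5 6 0, lD 0 4 5 0])))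

theorem nr0_ok (c : Cfg) (h : WeakN L c) (hl : ∀ l ∈ nr0, Holds c l) : False := by
  simp (disch := norm_num) only [nr0, List.forall_mem_append, List.forall_mem_cons, holds_lR, sg0,
    one_mul] at hl
  exact lt_asymm (rectN h hl.1).1 hl.2.1

theorem nr4_ok (c : Cfg) (h : WeakN L c) (hl : ∀ l ∈ nr4, Holds c l) : False := by
  simp (disch := norm_num) only [nr4, List.forall_mem_append, List.forall_mem_cons, holds_lR, sg0,
    sg1, one_mul, neg_mul, neg_pos] at hl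
  obtain ⟨h0, s1, s2, s3, -⟩ := hl
  obtain ⟨-, -, -, -, -, A, B, hA, hB, hq⟩ := rectN h h0
  obtain ⟨α, β, γ, aq, bq, cq, -, -, -, -, -, -, -, -, -, m7, -, m9, q⟩ := hq 4 (by norm_num)
  exact absurd (qN1 q (m7.pos s1) (m9.pos s2)).1 (not_le.2 s3)

theorem nr5_ok (c : Cfg) (h : WeakN L c) (hg : Gen c) (hl : ∀ l ∈ nr5, Holds c l) : False := by
  simp (disch := norm_num) only [nr5, List.forall_mem_append, List.forall_mem_cons, holds_lR, sg0,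
    holds_lD, sg1, one_mul, neg_mul, neg_pos] at hl
  obtain ⟨h0, s1, s2, s3, s4, -⟩ := hl
  obtain ⟨-, -, -, -, -, A, B, hA, hB, hq⟩ := rectN h h0
  obtain ⟨α, β, γ, aq, bq, cq, -, -, -, m1, -, m3, -, -, -, m7, -, m9, q⟩ := hq 4 (by norm_num)
  exact qN2 hA hB q (m7.pos s1) (m9.pos s2) (m1.neg s3) (m3.neg s4)
    (hg.1 3 4 (by norm_num) (by norm_num) (by norm_num))

theorem nr678_ok (c : Cfg) (h : WeakN L c) : ((∀ l ∈ nr6, Holds c l) → False) ∧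
    ((∀ l ∈ nr7, Holds c l) → False) ∧ ((∀ l ∈ nr8, Holds c l) → False) := by
  simp (disch := norm_num) only [nr6, nr7, nr8, List.forall_mem_append, List.forall_mem_cons,
    holds_lR, sg0, holds_lD, sg1, one_mul, neg_mul, neg_pos]
  refine ⟨?_, ?_, ?_⟩ <;> rintro ⟨h0, s1, s2, s3, s4, s5, s6, s7, -⟩ <;>
    obtain ⟨-, -, -, -, -, A, B, hA, hB, hq⟩ := rectN h h0 <;>
    obtain ⟨α, β, γ, aq, bq, cq, -, -, -, m1, m2, m3, -, m5, m6, m7, m8, m9, q⟩ :=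
      hq 4 (by norm_num) <;>
    have := qN3 hA hB q (m7.pos s1) (m8.pos s2) (m9.neg s3) s4 (m3.pos s5)
  · exact this.1 (m5.pos s6) (m1.neg s7)
  · exact this.2.1 (m5.pos s6) (m6.pos s7)
  · exact this.2.2 (m5.neg s6) (m2.pos s7)

lemma gp7 (o a b c x y : E3) : det3 o a c * det3 b x y =
    det3 b a c * det3 o x y + det3 o b c * det3 a x y + det3 o a b * det3 c x y := by
  simp only [det3, dt, cr0, cr1, cr2]; ring

theorem nr9_ok (c : Cfg) (h : WeakN L c) (hl : ∀ l ∈ nr9, Holds c l) : False := by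
  simp (disch := norm_num) only [nr9, arc, List.forall_mem_append, List.forall_mem_cons, holds_lR,
    sg0, holds_lD, sg1, one_mul, neg_mul, neg_pos] at hl
  obtain ⟨h0, ⟨s1, s2, s3, s4, s5, s6, -⟩, ⟨t1, t2, t3, t4, t5, t6, -⟩, ⟨u1, u2, u3, u4, u5, u6, -⟩,
    -, w2, w3, w4, -⟩ := hl
  obtain ⟨-, d0, d1, d2, d3, A, B, hA, hB, hq⟩ := rectN h h0
  obtain ⟨a, b, e, aq, bq, cq, f1, f2, f3, m1, -, m3, m4, m5, -, m7, -, m9, q⟩ :=
    hq 4 (by norm_num)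
  obtain ⟨α, β, γ, aq', bq', cq', g1, g2, g3, n1, -, n3, n4, n5, -, n7, -, n9, q'⟩ :=
    hq 5 (by norm_num)
  obtain ⟨a', b', e', aq'', bq'', cq'', k1, k2, k3, o1, -, o3, o4, o5, -, o7, -, o9, q''⟩ :=
    hq 6 (by norm_num)
  have i1 : c.D 0 4 6 * c.D 5 1 2 =
      c.D 5 4 6 * c.D 0 1 2 + c.D 0 5 6 * c.D 4 1 2 + c.D 0 4 5 * c.D 6 1 2 := gp7 _ _ _ _ _ _
  have i2 : c.D 0 4 6 * c.D 0 5 2 = c.D 0 5 6 * c.D 0 4 2 + c.D 0 4 5 * c.D 0 6 2 := by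
    simp only [Cfg.D, det3, dt, cr0, cr1, cr2]; ring
  have i3 : c.D 0 4 6 * c.D 0 1 5 = c.D 0 5 6 * c.D 0 1 4 + c.D 0 4 5 * c.D 0 1 6 := by
    simp only [Cfg.D, det3, dt, cr0, cr1, cr2]; ring
  rw [f1, g1, k1] at i1
  rw [f2, g2, k2] at i2
  rw [f3, g3, k3] at i3
  refine ell (m := c.D 0 4 6) (l := c.D 5 4 6 * c.D 0 1 2 / c.D 3 1 2) hA hB
    (qE q' (n7.pos t1) (n9.pos t2) (n3.pos t3) (n5.neg t4) (n1.pos t5) (n4.neg t6))
    (qE q (m7.pos s1) (m9.pos s2) (m3.pos s3) (m5.neg s4) (m1.pos s5) (m4.neg s6))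
    (qE q'' (o7.pos u1) (o9.pos u2) (o3.pos u3) (o5.neg u4) (o1.pos u5) (o4.neg u6))
    (by linarith [n3.pos t3, n5.neg t4]) (by linarith [m3.pos s3, m5.neg s4])
    (by linarith [o3.pos u3, o5.neg u4]) (n1.pos t5) (by linarith [n3.pos t3, n4.neg t6])
    (n3.pos t3) (by positivity) w3 w4 ?_ (mul_right_cancel₀ d2.ne' (by linarith))
    (mul_right_cancel₀ d3.ne' (by linarith))
  field_simp
  linarith

end Pool.Agent.MP_e7f0cc_co
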