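import Pool.Agent.MP_e7f0cc_co.NData
import Pool.Agent.Mg.Fe7f0cc.G3eb4aa

/-! No eight lines at pairwise distance one, for an arbitrary norm. -/

namespace Pool.Agent.MP_e7f0cc_co

section
variable {G : Type*} [NormedAddCommGroup G] [NormedSpace ℝ G] {L : E3 →ₗ[ℝ] G}

def ext4 (a b c d : ℕ) : ℕ :=
  a + 8 * b + 64 * c + 512 * d + 4096 * ((List.range 8).filter fun x =>
    x != a && x != b && x != c && x != d).foldr (fun x acc => x + 8 * acc) 0

def ext4B (a b c d : ℕ) : Bool :=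
  a == b || a == c || a == d || b == c || b == d || c == d ||
    (injp (ext4 a b c d) && dig (ext4 a b c d) 0 == a && dig (ext4 a b c d) 1 == b &&
      dig (ext4 a b c d) 2 == c && dig (ext4 a b c d) 3 == d)

theorem ext4_all : ∀ a < 8, ∀ b < 8, ∀ c < 8, ∀ d < 8, ext4B a b c d = true := by decide +kernel

theorem ext4_ok : ∀ a < 8, ∀ b < 8, ∀ c < 8, ∀ d < 8, a ≠ b → a ≠ c → a ≠ d → b ≠ c → b ≠ d →
    c ≠ d → injp (ext4 a b c d) = true ∧ dig (ext4 a b c d) 0 = a ∧ dig (ext4 a b c d) 1 = b ∧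
      dig (ext4 a b c d) 2 = c ∧ dig (ext4 a b c d) 3 = d := by
  intro a ha b hb c hc d hd h1 h2 h3 h4 h5 h6
  simpa [ext4B, h1, h2, h3, h4, h5, h6, and_assoc] using ext4_all a ha b hb c hc d hd

lemma D_ne (c : Cfg) {i j k : ℕ} {t : ℝ} (h : 0 < t * c.D i j k) : i ≠ j ∧ i ≠ k ∧ j ≠ k := by
  refine ⟨?_, ?_, ?_⟩ <;> rintro rfl <;> refine h.ne' ?_ <;>
    simp only [Cfg.D, det3, dt, cr0, cr1, cr2] <;> ring

theorem base4 : ∀ t < 4, NoN L TT t := by
  intro t ht c hw hc π s g _ hl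
  have h := weakN_trans hw π s g
  interval_cases t
  · change ∀ l ∈ rule0, _ at hl
    simp (disch := norm_num) only [rule0, List.forall_mem_cons, holds_lD, holds_lR, sg0, one_mul,
      trans_D, trans_r] at hl
    obtain ⟨a1, a2, a3⟩ := D_ne c hl.1
    obtain ⟨a4, a5, -⟩ := D_ne c hl.2.1
    obtain ⟨a6, -, -⟩ := D_ne c hl.2.2.1
    obtain ⟨e, e0, e1, e2, e3⟩ := ext4_ok _ (dig_lt π 0) _ (dig_lt π 1) _ (dig_lt π 2) _
      (dig_lt π 3) a1 a2 a6 a3 a4.symm a5.symm
    refine noRect c hw hc _ s g (Or.inr e) ?_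
    change ∀ l ∈ rule0, _
    simp (disch := norm_num) only [rule0, List.forall_mem_cons, holds_lD, holds_lR, sg0, one_mul,
      trans_D, trans_r, e0, e1, e2, e3]
    refine ⟨hl.1, hl.2.1, hl.2.2.1, hl.2.2.2.1, hl.2.2.2.2.1, hl.2.2.2.2.2.1, hl.2.2.2.2.2.2.1,
      hl.2.2.2.2.2.2.2.1, fun x hx => by simp at hx⟩
  · exact rule1_ok _ hl
  · exact rule2N _ h hl
  · exact rule3N _ h hl

theorem no_goodN (c : Cfg) (hw : WeakN L c) (hc : Gen c) : False := by
  have H4 := base4 (L := L)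
  have H5 := uptoN ok4 (by norm_num) H4
  have H6 := uptoN ok5 (by norm_num) H5
  have H7 := uptoN ok6 (by norm_num) H6
  have H8 := uptoN ok7 (by norm_num) H7
  have H9 := uptoN ok8 (by norm_num) H8
  have H10 := uptoN ok9 (by norm_num) H9
  have H11 := uptoN ok10 (by norm_num) H10
  have H12 := uptoN ok11 (by norm_num) H11
  have H13 := uptoN ok12 (by norm_num) H12
  have H14 := uptoN ok13 (by norm_num) H13
  have H15 := uptoN ok14 (by norm_num) H14
  have H16 := uptoN ok15 (by norm_num) H15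
  have H17 := uptoN ok16 (by norm_num) H16
  have H18 := uptoN ok17 (by norm_num) H17
  have H19 := uptoN ok18 (by norm_num) H18
  have H20 := uptoN ok19 (by norm_num) H19
  have H21 := uptoN ok20 (by norm_num) H20
  have H22 := uptoN ok21 (by norm_num) H21
  have H23 := uptoN ok22 (by norm_num) H22
  have H24 := uptoN ok23 (by norm_num) H23
  have H25 := uptoN ok24 (by norm_num) H24
  have H26 := uptoN ok25 (by norm_num) H25
  have H27 := uptoN ok26 (by norm_num) H26
  have H28 := uptoN ok27 (by norm_num) H27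
  have H29 := uptoN ok28 (by norm_num) H28
  have H30 := uptoN ok29 (by norm_num) H29
  have H31 := uptoN ok30 (by norm_num) H30
  have H32 := uptoN ok31 (by norm_num) H31
  have H33 := uptoN ok32 (by norm_num) H32
  have H34 := uptoN ok33 (by norm_num) H33
  have H35 := uptoN ok34 (by norm_num) H34
  have H36 := uptoN ok35 (by norm_num) H35
  have H37 := uptoN ok36 (by norm_num) H36
  have H38 := uptoN ok37 (by norm_num) H37
  have H39 := uptoN ok38 (by norm_num) H38
  have H40 := uptoN ok39 (by norm_num) H39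
  have H41 := uptoN ok40 (by norm_num) H40
  have H42 := uptoN ok41 (by norm_num) H41
  have H43 := uptoN ok42 (by norm_num) H42
  have H44 := uptoN ok43 (by norm_num) H43
  have H45 := uptoN ok44 (by norm_num) H44
  have H46 := uptoN ok45 (by norm_num) H45
  have H47 := uptoN ok46 (by norm_num) H46
  have H48 := uptoN ok47 (by norm_num) H47
  have H49 := uptoN ok48 (by norm_num) H48
  have H50 := uptoN ok49 (by norm_num) H49
  have H51 := uptoN ok50 (by norm_num) H50
  have H52 := uptoN ok51 (by norm_num) H51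
  have H53 := uptoN ok52 (by norm_num) H52
  have H54 := uptoN ok53 (by norm_num) H53
  have H55 := uptoN ok54 (by norm_num) H54
  have H56 := uptoN ok55 (by norm_num) H55
  have H57 := uptoN ok56 (by norm_num) H56
  have H58 := uptoN ok57 (by norm_num) H57
  have H59 := uptoN ok58 (by norm_num) H58
  have H60 := uptoN ok59 (by norm_num) H59
  have H61 := uptoN ok60 (by norm_num) H60
  have H62 := uptoN ok61 (by norm_num) H61
  have H63 := uptoN ok62 (by norm_num) H62
  have H64 := uptoN ok63 (by norm_num) H63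
  have H65 := uptoN ok64 (by norm_num) H64
  have H66 := uptoN ok65 (by norm_num) H65
  have H67 := uptoN ok66 (by norm_num) H66
  have H68 := uptoN ok67 (by norm_num) H67
  have H69 := uptoN ok68 (by norm_num) H68
  have H70 := uptoN ok69 (by norm_num) H69
  have H71 := uptoN ok70 (by norm_num) H70
  have H72 := uptoN ok71 (by norm_num) H71
  have H73 := uptoN ok72 (by norm_num) H72
  have H74 := uptoN ok73 (by norm_num) H73
  have H75 := uptoN ok74 (by norm_num) H74
  have H76 := uptoN ok75 (by norm_num) H75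
  have H77 := uptoN ok76 (by norm_num) H76
  have H78 := uptoN ok77 (by norm_num) H77
  have H79 := uptoN ok78 (by norm_num) H78
  have H80 := uptoN ok79 (by norm_num) H79
  have H81 := uptoN ok80 (by norm_num) H80
  have H82 := uptoN ok81 (by norm_num) H81
  have H83 := uptoN ok82 (by norm_num) H82
  have H84 := uptoN ok83 (by norm_num) H83
  have H85 := uptoN ok84 (by norm_num) H84
  have H86 := uptoN ok85 (by norm_num) H85
  have H87 := uptoN ok86 (by norm_num) H86
  have H88 := uptoN ok87 (by norm_num) H87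
  have H89 := uptoN ok88 (by norm_num) H88
  have H90 := uptoN ok89 (by norm_num) H89
  have H91 := uptoN ok90 (by norm_num) H90
  have H92 := uptoN ok91 (by norm_num) H91
  have H93 := uptoN ok92 (by norm_num) H92
  have H94 := uptoN ok93 (by norm_num) H93
  have H95 := uptoN ok94 (by norm_num) H94
  have H96 := uptoN ok95 (by norm_num) H95
  have H97 := uptoN ok96 (by norm_num) H96
  refine H97 96 (by norm_num) c hw hc 16434824 0 0 (Or.inr (by decide +kernel)) fun l hl => ?_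
  have : TT 96 = [] := rfl
  rw [this] at hl
  simp at hl

lemma dt_smul (t : ℝ) (x y : E3) : dt x (t • y) = t * dt x y := by
  simp only [dt, PiLp.smul_apply, smul_eq_mul]; ring

lemma span2 {u v w : E3} (h : cr u v ≠ 0) (h0 : det3 u v w = 0) :
    ∃ a b : ℝ, w = a • u + b • v := by
  have hn := norm_pos_iff.2 h
  have hd : det3 u v (cr u v) = ‖cr u v‖ ^ 2 := by
    simp only [nsq, det3, dt, cr0, cr1, cr2]; ring
  have hd' : det3 u v (cr u v) ≠ 0 := by rw [hd]; positivity
  have e := cramer u v (cr u v) w hd'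
  rw [h0, zero_div, zero_smul, add_zero] at e
  exact ⟨_, _, e⟩

lemma circuitN {u v w p q r : E3} (h12 : cr u v ≠ 0) (h13 : cr u w ≠ 0) (h23 : cr v w ≠ 0)
    (hn : 0 < ‖L (cr u v)‖) (e12 : |dt (q - p) (cr u v)| = ‖L (cr u v)‖)
    (e13 : |dt (r - p) (cr u w)| = ‖L (cr u w)‖) (e23 : |dt (r - q) (cr v w)| = ‖L (cr v w)‖) :
    det3 u v w ≠ 0 := by
  intro h0
  obtain ⟨a, b, rfl⟩ := span2 h12 h0
  have c1 : cr u (a • u + b • v) = b • cr u v := by
    apply ext3 <;> simp only [cr0, cr1, cr2, PiLp.add_apply, PiLp.smul_apply, smul_eq_mul] <;> ring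
  have c2 : cr v (a • u + b • v) = (-a) • cr u v := by
    apply ext3 <;> simp only [cr0, cr1, cr2, PiLp.add_apply, PiLp.smul_apply, smul_eq_mul] <;> ring
  rw [c1] at h13 e13
  rw [c2] at h23 e23
  have hb : |b| ≠ 0 := by rw [abs_ne_zero]; rintro rfl; simp at h13
  have ha : |-a| ≠ 0 := by rw [abs_ne_zero]; intro h; rw [h] at h23; simp at h23
  rw [dt_smul, abs_mul, map_smul, norm_smul, Real.norm_eq_abs] at e13 e23
  have f13 := mul_left_cancel₀ hb e13
  have f23 := mul_left_cancel₀ ha e23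
  have s : dt (r - p) (cr u v) = dt (q - p) (cr u v) + dt (r - q) (cr u v) := by
    simp only [dt, PiLp.sub_apply]; ring
  rcases (abs_eq hn.le).1 e12 with g1 | g1 <;> rcases (abs_eq hn.le).1 f13 with g2 | g2 <;>
    rcases (abs_eq hn.le).1 f23 with g3 | g3 <;> linarith

end

section
variable {Q : Type*} [SeminormedAddCommGroup Q] [NormedSpace ℝ Q]

lemma par3 (π : E3 →ₗ[ℝ] Q) {z v w : E3} (hz : z ≠ 0) (h0 : π z = 0) (h1 : ‖π v‖ = 1)
    (h2 : ‖π w‖ = 1) (h3 : ‖π (w - v)‖ = 1) : det3 z v w ≠ 0 := by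
  intro hd
  have hc : cr z v ≠ 0 := by
    intro hc
    obtain ⟨t, rfl⟩ := par_scale hz hc
    rw [map_smul, h0, smul_zero, norm_zero] at h1
    exact zero_ne_one h1
  obtain ⟨a, b, rfl⟩ := span2 hc hd
  rw [show a • z + b • v - v = a • z + (b - 1) • v by module] at h3
  rw [map_add, map_smul, map_smul, h0, smul_zero, zero_add, norm_smul, h1, mul_one,
    Real.norm_eq_abs] at h2 h3
  rcases (abs_eq zero_le_one).1 h2 with g | g <;> rcases (abs_eq zero_le_one).1 h3 with g' | g' <;>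
    linarith

lemma tri3 {x y w : Q} (hx : ‖x‖ = 1) (hy : ‖y‖ = 1) (hw : ‖w‖ = 1) {r s t : ℝ}
    (h : r • x = s • y + t • w) : |r| ≤ |s| + |t| := by
  have := norm_add_le (s • y) (t • w)
  rw [← h] at this
  simpa only [norm_smul, hx, hy, hw, mul_one, Real.norm_eq_abs] using this

lemma ineq4 {ι : Type} {P : ι → Q} (h : ∀ i j, i ≠ j → ‖P j - P i‖ = 1) {a b c y : ι}
    (ab : a ≠ b) (ac : a ≠ c) (bc : b ≠ c) (ay : a ≠ y) (hb : b ≠ y) {r s t : ℝ}
    (e : r + s + t = 1) (hy : P y = r • P a + s • P b + t • P c) :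
    1 ≤ |s| + |t| ∧ |s| ≤ 1 + |t| ∧ |s + t| ≤ |r| + |t| ∧ |s + t| ≤ 1 + |t| := by
  obtain rfl : r = 1 - s - t := by linarith
  have h1 := tri3 (h a y ay) (h a b ab) (h a c ac) (r := 1) (s := s) (t := t) (by rw [hy]; module)
  have h2 := tri3 (h a b ab) (h a y ay) (h a c ac) (r := s) (s := 1) (t := -t) (by rw [hy]; module)
  have h3 := tri3 (h b y hb) (h a y ay) (h b c bc) (r := s + t) (s := -(1 - s - t)) (t := t)
    (by rw [hy]; module)
  have h4 := tri3 (h a b ab) (h a y ay) (h b c bc) (r := s + t) (s := 1) (t := -t)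
    (by rw [hy]; module)
  simp only [abs_one, abs_neg] at h1 h2 h3 h4
  exact ⟨h1, h2, h3, h4⟩

lemma par4 {ι : Type} {P : ι → Q} (h : ∀ i j, i ≠ j → ‖P j - P i‖ = 1) {a b c y : ι}
    (ab : a ≠ b) (ac : a ≠ c) (bc : b ≠ c) (ay : a ≠ y) (hb : b ≠ y) (hc : c ≠ y) {r s t : ℝ}
    (e : r + s + t = 1) (hy : P y = r • P a + s • P b + t • P c) :
    P y = P b + P c - P a ∨ P y = P a + P c - P b ∨ P y = P a + P b - P c := by
  obtain ⟨a1, a2, a3, a4⟩ := ineq4 h ab ac bc ay hb e hy
  obtain ⟨-, b2, b3, b4⟩ := ineq4 h ac ab bc.symm ay hc (r := r) (s := t) (t := s) (by linarith)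
    (by rw [hy]; module)
  obtain ⟨c1, c2, c3, c4⟩ := ineq4 h ab.symm bc ac hb ay (r := s) (s := r) (t := t) (by linarith)
    (by rw [hy]; module)
  obtain ⟨-, d2, d3, d4⟩ := ineq4 h bc ab.symm ac.symm hb hc (r := s) (s := t) (t := r)
    (by linarith) (by rw [hy]; module)
  obtain ⟨e1, e2, e3, e4⟩ := ineq4 h ac.symm bc.symm ab hc ay (r := t) (s := r) (t := s)
    (by linarith) (by rw [hy]; module)
  obtain ⟨-, f2, f3, f4⟩ := ineq4 h bc.symm ac.symm ab.symm hc hb (r := t) (s := s) (t := r)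
    (by linarith) (by rw [hy]; module)
  have g1 := le_abs_self (s + t)
  have g2 := le_abs_self (t + s)
  have g3 := le_abs_self (r + t)
  have g4 := le_abs_self (t + r)
  have g5 := le_abs_self (r + s)
  have g6 := le_abs_self (s + r)
  have : (r = -1 ∧ s = 1 ∧ t = 1) ∨ (r = 1 ∧ s = -1 ∧ t = 1) ∨ (r = 1 ∧ s = 1 ∧ t = -1) := by
    rcases abs_cases r with ⟨hr, -⟩ | ⟨hr, -⟩ <;> rcases abs_cases s with ⟨hs, -⟩ | ⟨hs, -⟩ <;>
      rcases abs_cases t with ⟨ht, -⟩ | ⟨ht, -⟩ <;>
      first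
        | (exfalso; linarith [abs_nonneg r, abs_nonneg s, abs_nonneg t])
        | exact Or.inl ⟨by linarith, by linarith, by linarith⟩
        | exact Or.inr (Or.inl ⟨by linarith, by linarith, by linarith⟩)
        | exact Or.inr (Or.inr ⟨by linarith, by linarith, by linarith⟩)
  rcases this with ⟨rfl, rfl, rfl⟩ | ⟨rfl, rfl, rfl⟩ | ⟨rfl, rfl, rfl⟩
  · exact Or.inl (by rw [hy]; module)
  · exact Or.inr (Or.inl (by rw [hy]; module))
  · exact Or.inr (Or.inr (by rw [hy]; module))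

lemma par8 (π : E3 →ₗ[ℝ] Q) {z : E3} (hz : z ≠ 0) (h0 : π z = 0) (p : Fin 8 → E3)
    (h : ∀ i j, i ≠ j → ‖π (p j - p i)‖ = 1) : False := by
  classical
  have hd := par3 π hz h0 (h 0 1 (by decide)) (h 0 2 (by decide))
    (by rw [sub_sub_sub_cancel_right]; exact h 1 2 (by decide))
  have h' : ∀ i j, i ≠ j → ‖π (p j) - π (p i)‖ = 1 := fun i j hij => by
    rw [← map_sub]; exact h i j hij
  have key : ∀ k : Fin 8, 0 ≠ k → 1 ≠ k → 2 ≠ k → π (p k) ∈ ({π (p 1) + π (p 2) - π (p 0),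
      π (p 0) + π (p 2) - π (p 1), π (p 0) + π (p 1) - π (p 2)} : Finset Q) := by
    intro k k0 k1 k2
    obtain ⟨a, s, t, e⟩ : ∃ a s t : ℝ, p k - p 0 = a • z + s • (p 1 - p 0) + t • (p 2 - p 0) :=
      ⟨_, _, _, cramer _ _ _ _ hd⟩
    have e' := congrArg π e
    simp only [map_sub, map_add, map_smul, h0, smul_zero, zero_add] at e'
    simp only [Finset.mem_insert, Finset.mem_singleton]
    exact par4 (P := fun i => π (p i)) h' (by decide) (by decide) (by decide) k0 k1 k2
      (r := 1 - s - t) (s := s) (t := t) (by ring) (by rw [sub_eq_iff_eq_add.1 e']; module)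
  have := Finset.card_le_card_of_injOn (s := ({3, 4, 5, 6} : Finset (Fin 8))) (fun i => π (p i))
    (fun k hk => key k (by rintro rfl; revert hk; decide) (by rintro rfl; revert hk; decide)
      (by rintro rfl; revert hk; decide)) (fun i _ j _ e => by
        by_contra hij
        have := h' i j hij
        rw [show π (p i) = π (p j) from e, sub_self, norm_zero] at this
        exact zero_ne_one this)
  have h3 := this.trans Finset.card_le_three
  revert h3
  decide

end

variable {E : Type*} [NormedAddCommGroup E] [NormedSpace ℝ E]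

theorem no_eightN (φ : E3 ≃ₗ[ℝ] E) (L : E3 →ₗ[ℝ] (E →L[ℝ] ℝ)) (hL : ∀ w x, L w (φ x) = dt w x)
    (p u : Fin 8 → E3) (hu : ∀ i, u i ≠ 0)
    (lo : ∀ i j, i ≠ j → ∀ s t : ℝ, 1 ≤ ‖φ (p j - p i + t • u j - s • u i)‖)
    (up : ∀ i j, i ≠ j → ∀ e : ℝ, 1 < e → ∃ s t : ℝ, ‖φ (p j - p i + t • u j - s • u i)‖ < e) :
    False := by
  have hpos : ∀ w, w ≠ 0 → 0 < ‖L w‖ := by
    intro w hw
    rw [norm_pos_iff]
    intro h
    have := hL w w
    rw [h] at this
    exact (dt_pos hw).ne this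
  have hle : ∀ i j, i ≠ j → ∀ w, dt (u i) w = 0 → dt (u j) w = 0 → |dt (p j - p i) w| ≤ ‖L w‖ := by
    intro i j hij w h1 h2
    refine (le_iff_forall_one_lt_le_mul₀ (norm_nonneg _)).2 fun e he => ?_
    obtain ⟨s, t, h⟩ := up i j hij e he
    have e1 : L w (φ (p j - p i + t • u j - s • u i)) = dt (p j - p i) w := by
      rw [hL]
      simp only [dt, PiLp.add_apply, PiLp.sub_apply, PiLp.smul_apply, smul_eq_mul] at h1 h2 ⊢
      linear_combination t * h2 - s * h1
    rw [← e1, ← Real.norm_eq_abs]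
    exact ((L w).le_opNorm _).trans (mul_le_mul_of_nonneg_left h.le (norm_nonneg _))
  have key : ∀ i j, i ≠ j → ∀ a b c : ℝ, |c| ≤ ‖φ (a • u i + b • u j + c • (p j - p i))‖ := by
    intro i j hij a b c
    rcases eq_or_ne c 0 with rfl | hc
    · rw [abs_zero]; exact norm_nonneg _
    · have e : a • u i + b • u j + c • (p j - p i) =
          c • (p j - p i + (b / c) • u j - (-a / c) • u i) := by
        match_scalars <;> field_simp
      rw [e, map_smul, norm_smul, Real.norm_eq_abs]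
      exact le_mul_of_one_le_right (abs_nonneg _) (lo i j hij _ _)
  have hs : ∀ i j, i ≠ j → |dt (p j - p i) (cr (u i) (u j))| = ‖L (cr (u i) (u j))‖ := by
    intro i j hij
    refine le_antisymm (hle i j hij _ (by simp only [dt, cr0, cr1, cr2]; ring)
      (by simp only [dt, cr0, cr1, cr2]; ring)) ?_
    by_cases hc : cr (u i) (u j) = 0
    · rw [hc, map_zero, norm_zero]; exact abs_nonneg _
    have hD : det3 (u i) (u j) (p j - p i) ≠ 0 := by
      intro h0
      obtain ⟨a, b, e⟩ := span2 hc h0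
      have := key i j hij a b (-1)
      rw [← e, neg_one_smul, add_neg_cancel, map_zero, norm_zero, abs_neg, abs_one] at this
      linarith
    refine ContinuousLinearMap.opNorm_le_bound _ (abs_nonneg _) fun y => ?_
    obtain ⟨x, rfl⟩ := φ.surjective y
    obtain ⟨a, b, c, rfl⟩ : ∃ a b c : ℝ, x = a • u i + b • u j + c • (p j - p i) :=
      ⟨_, _, _, cramer _ _ _ x hD⟩
    have e1 : dt (cr (u i) (u j)) (a • u i + b • u j + c • (p j - p i)) =
        dt (p j - p i) (cr (u i) (u j)) * c := by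
      simp only [dt, cr0, cr1, cr2, PiLp.add_apply, PiLp.smul_apply, smul_eq_mul]; ring
    rw [hL, e1, Real.norm_eq_abs, abs_mul]
    exact mul_le_mul_of_nonneg_left (key i j hij a b c) (abs_nonneg _)
  have quo : ∀ z : E3, z ≠ 0 → ∃ π : E3 →ₗ[ℝ] E ⧸ (ℝ ∙ φ z), π z = 0 ∧ ∀ i j, i ≠ j →
      cr z (u i) = 0 → cr z (u j) = 0 → ‖π (p j - p i)‖ = 1 := by
    intro z hz
    have h0 : ((ℝ ∙ φ z).mkQ ∘ₗ φ.toLinearMap) z = 0 :=
      (Submodule.Quotient.mk_eq_zero _).2 (Submodule.mem_span_singleton_self _)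
    refine ⟨_, h0, fun i j hij h1 h2 => ?_⟩
    obtain ⟨a, ha⟩ := par_scale hz h1
    obtain ⟨b, hb⟩ := par_scale hz h2
    refine le_antisymm (le_of_forall_gt fun e he => ?_) (not_lt.1 fun hlt => ?_)
    · obtain ⟨s, t, h⟩ := up i j hij e he
      refine lt_of_le_of_lt ?_ h
      refine le_of_eq_of_le ?_ (Submodule.Quotient.norm_mk_le (ℝ ∙ φ z) _)
      change _ = ‖((ℝ ∙ φ z).mkQ ∘ₗ φ.toLinearMap) (p j - p i + t • u j - s • u i)‖
      rw [map_sub _ _ (s • u i), map_add, ha, hb]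
      simp only [map_smul, h0, smul_zero, add_zero, sub_zero]
    · obtain ⟨m, hm, hm'⟩ := Submodule.Quotient.norm_mk_lt (S := ℝ ∙ φ z) _ (sub_pos.2 hlt)
      obtain ⟨t, ht⟩ := Submodule.mem_span_singleton.1 ((Submodule.Quotient.eq _).1 hm)
      have ha0 : a ≠ 0 := by rintro rfl; exact hu i (by simpa using ha)
      have h3 := key i j hij (t / a) 0 1
      rw [ha, smul_smul, div_mul_cancel₀ _ ha0, zero_smul, add_zero, one_smul, map_add, map_smul,
        ht, abs_one] at h3
      rw [sub_add_cancel] at h3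
      exact absurd (hm'.trans_eq (add_sub_cancel _ _)) (not_lt.2 h3)
  have plane : ∀ z : E3, z ≠ 0 → ∀ a b k, a ≠ b → cr z (u a) = 0 → cr z (u b) = 0 →
      cr z (u k) ≠ 0 → dt (p b - p a) (cr z (u k)) = 0 := by
    intro z hz a b k hab h1 h2 hk
    have one : ∀ a, cr z (u a) = 0 → |dt (p k - p a) (cr z (u k))| = ‖L (cr z (u k))‖ := by
      intro a h1
      obtain ⟨t, ht⟩ := par_scale hz h1
      have ht0 : |t| ≠ 0 := by
        rw [abs_ne_zero]; rintro rfl; exact hu a (by simpa using ht)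
      have := hs a k (by rintro rfl; exact hk h1)
      rw [ht, cr_smul_left, dt_smul, map_smul, norm_smul, Real.norm_eq_abs, abs_mul] at this
      exact mul_left_cancel₀ ht0 this
    have perp : ∀ a, cr z (u a) = 0 → dt (u a) (cr z (u k)) = 0 := by
      intro a h1
      obtain ⟨t, ht⟩ := par_scale hz h1
      rw [ht]
      simp only [dt, cr0, cr1, cr2, PiLp.smul_apply, smul_eq_mul]; ring
    have b0 := abs_le.1 (hle a b hab _ (perp a h1) (perp b h2))
    have s : dt (p b - p a) (cr z (u k)) =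
        dt (p k - p a) (cr z (u k)) - dt (p k - p b) (cr z (u k)) := by
      simp only [dt, PiLp.sub_apply]; ring
    have hn := hpos _ hk
    rcases (abs_eq hn.le).1 (one a h1) with g1 | g1 <;>
      rcases (abs_eq hn.le).1 (one b h2) with g2 | g2 <;> linarith [b0.1, b0.2]
  have two : ∀ (z : E3) (S : Finset (Fin 8)) (k : Fin 8), z ≠ 0 → (∀ i ∈ S, cr z (u i) = 0) →
      cr z (u k) ≠ 0 → S.card ≤ 2 := by
    intro z S k hz hS hk
    by_contra hc
    obtain ⟨a, ha, b, hb, c, hc, h1, h2, h3⟩ := Finset.two_lt_card.1 (not_le.1 hc)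
    obtain ⟨π, h0, hπ⟩ := quo z hz
    refine par3 π hz h0 (hπ a b h1 (hS a ha) (hS b hb)) (hπ a c h2 (hS a ha) (hS c hc))
      (by rw [sub_sub_sub_cancel_right]; exact hπ b c h3 (hS b hb) (hS c hc))
      (det_zero_of_perp hk ?_ (plane z hz a b k h1 (hS a ha) (hS b hb) hk)
        (plane z hz a c k h2 (hS a ha) (hS c hc) hk))
    simp only [dt, cr0, cr1, cr2]; ring
  have circ : ∀ i j k, cr (u i) (u j) ≠ 0 → cr (u i) (u k) ≠ 0 → cr (u j) (u k) ≠ 0 →
      det3 (u i) (u j) (u k) ≠ 0 := by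
    intro i j k h1 h2 h3
    exact circuitN h1 h2 h3 (hpos _ h1) (hs i j (by rintro rfl; exact h1 (cr_self _)))
      (hs i k (by rintro rfl; exact h2 (cr_self _))) (hs j k (by rintro rfl; exact h3 (cr_self _)))
  by_cases hall : ∀ i j, i ≠ j → cr (u i) (u j) ≠ 0
  · let c : Cfg := ⟨fun i => u (Fin.ofNat 8 i), fun i => cr (u (Fin.ofNat 8 i)) (p (Fin.ofNat 8 i))⟩
    have hr : ∀ i j, c.r i j = dt (p (Fin.ofNat 8 j) - p (Fin.ofNat 8 i))
        (cr (u (Fin.ofNat 8 i)) (u (Fin.ofNat 8 j))) := by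
      intro i j
      simp only [c, Cfg.r, rr, dt, cr0, cr1, cr2, PiLp.sub_apply]; ring
    have hne : ∀ i j, i < 8 → j < 8 → i ≠ j → Fin.ofNat 8 i ≠ Fin.ofNat 8 j := by
      intro i j hi hj hij he
      have := congrArg Fin.val he
      simp only [Fin.val_ofNat] at this
      omega
    have hw : WeakN L c := by
      intro i j hi hj
      rw [hr]
      by_cases hij : i = j
      · subst hij; simp [c, cr_self, dt]
      · exact hs _ _ (hne i j hi hj hij)
    refine no_goodN c hw ⟨fun i j hi hj hij h0 => ?_, fun i j k hi hj hk h1 h2 h3 => ?_⟩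
    · have := hw i j hi hj
      rw [h0, abs_zero] at this
      exact (hpos _ (hall _ _ (hne i j hi hj hij))).ne this
    · exact circ _ _ _ (hall _ _ (hne i j hi hj h1)) (hall _ _ (hne i k hi hk h2))
        (hall _ _ (hne j k hj hk h3))
  · push Not at hall
    obtain ⟨a, b, hab, hc⟩ := hall
    obtain ⟨π, h0, hπ⟩ := quo (u a) (hu a)
    by_cases hp : ∀ k, cr (u a) (u k) = 0
    · exact par8 π (hu a) h0 p fun i j hij => hπ i j hij (hp i) (hp j)
    push Not at hp
    obtain ⟨k, hk⟩ := hp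
    have hN : cr (u a) (p b - p a) ≠ 0 := by
      intro h
      obtain ⟨t, ht⟩ := par_scale (hu a) h
      have := hπ a b hab (cr_self _) hc
      rw [ht, map_smul, h0, smul_zero, norm_zero] at this
      exact zero_ne_one this
    have pl : ∀ l, cr (u a) (u l) ≠ 0 → dt (u l) (cr (u a) (p b - p a)) = 0 := by
      intro l hl
      have := plane (u a) (hu a) a b l hab (cr_self _) hc hl
      simp only [dt, cr0, cr1, cr2] at this ⊢
      linarith
    have c1 := two (u a) (Finset.univ.filter fun l => cr (u a) (u l) = 0) k (hu a)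
      (fun i hi => (Finset.mem_filter.1 hi).2) hk
    have c2 := two (u k) (Finset.univ.filter fun l => ¬ cr (u a) (u l) = 0) a (hu k)
      (fun l hl => by
        by_contra hkl
        have hl' := (Finset.mem_filter.1 hl).2
        refine circ a k l hk hl' hkl (det_zero_of_perp hN ?_ (pl k hk) (pl l hl'))
        simp only [dt, cr0, cr1, cr2]; ring)
      (by rw [cr_swap, neg_ne_zero]; exact hk)
    have c3 := Finset.card_filter_add_card_filter_not (s := (Finset.univ : Finset (Fin 8)))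
      (fun l => cr (u a) (u l) = 0)
    simp only [Finset.card_univ, Fintype.card_fin] at c3
    omega

lemma line_paramN (φ : E3 ≃ₗ[ℝ] E) (ℓ : AffineSubspace ℝ E)
    (h : Module.finrank ℝ ℓ.direction = 1) :
    ∃ p u : E3, u ≠ 0 ∧ ∀ x, x ∈ ℓ ↔ ∃ s : ℝ, x = φ (p + s • u) := by
  have hne : ℓ ≠ ⊥ := by
    rintro rfl
    rw [AffineSubspace.direction_bot] at h
    simp at h
  obtain ⟨p, hp⟩ := (AffineSubspace.nonempty_iff_ne_bot ℓ).2 hne
  obtain ⟨⟨u, hu⟩, h0, h1⟩ := finrank_eq_one_iff'.1 h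
  refine ⟨φ.symm p, φ.symm u, fun e => h0 (Subtype.ext (by simpa using e)), fun x => ?_⟩
  simp only [map_add, map_smul, LinearEquiv.apply_symm_apply]
  refine ⟨fun hx => ?_, ?_⟩
  · obtain ⟨c, hc⟩ := h1 ⟨x -ᵥ p, AffineSubspace.vsub_mem_direction hx hp⟩
    refine ⟨c, ?_⟩
    have : c • u = x - p := congrArg Subtype.val hc
    rw [this]; abel
  · rintro ⟨s, rfl⟩
    have := AffineSubspace.vadd_mem_of_mem_direction (ℓ.direction.smul_mem s hu) hp
    rwa [vadd_eq_add, add_comm] at this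

theorem upperN (hE : Module.finrank ℝ E = 3) (k : ℕ) (ℓ : Fin k → AffineSubspace ℝ E)
    (h1 : ∀ i, Module.finrank ℝ (ℓ i).direction = 1)
    (h2 : ∀ i j, i ≠ j → sInf {d : ℝ | ∃ x ∈ ℓ i, ∃ y ∈ ℓ j, d = dist x y} = 1) : k ≤ 7 := by
  by_contra hk
  have h8 : 8 ≤ k := by omega
  have : Module.Finite ℝ E := Module.finite_of_finrank_eq_succ hE
  let φ : E3 ≃ₗ[ℝ] E := LinearEquiv.ofFinrankEq _ _ (by simp [hE])
  let B : E3 →ₗ[ℝ] E →ₗ[ℝ] ℝ := LinearMap.mk₂ ℝ (fun w y => dt w (φ.symm y))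
    (fun a b y => by simp only [dt, PiLp.add_apply]; ring)
    (fun t a y => by simp only [dt, PiLp.smul_apply, smul_eq_mul]; ring)
    (fun a y y' => by simp only [dt, map_add, PiLp.add_apply]; ring)
    (fun t a y => by simp only [dt, map_smul, PiLp.smul_apply, smul_eq_mul]; ring)
  choose p u hu hm using fun i => line_paramN φ (ℓ i) (h1 i)
  have hd : ∀ i j (s t : ℝ), dist (φ (p i + s • u i)) (φ (p j + t • u j)) =
      ‖φ (p j - p i + t • u j - s • u i)‖ := by
    intro i j s t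
    rw [dist_comm, dist_eq_norm, ← map_sub]
    congr 2
    abel
  refine no_eightN φ (LinearMap.toContinuousLinearMap.toLinearMap ∘ₗ B) (fun w x => by simp [B])
    (fun i => p (Fin.castLE h8 i)) (fun i => u (Fin.castLE h8 i)) (fun i => hu _)
    (fun i j hij s t => ?_) (fun i j hij e he => ?_)
  · rw [← h2 _ _ fun e => hij (Fin.castLE_injective h8 e), ← hd]
    refine csInf_le ⟨0, ?_⟩ ⟨_, (hm _ _).2 ⟨s, rfl⟩, _, (hm _ _).2 ⟨t, rfl⟩, rfl⟩
    rintro d ⟨x, -, y, -, rfl⟩
    exact dist_nonneg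
  · rw [← h2 _ _ fun e => hij (Fin.castLE_injective h8 e)] at he
    obtain ⟨d, ⟨x, hx, y, hy, rfl⟩, hlt⟩ := exists_lt_of_csInf_lt
      (by exact ⟨_, _, (hm _ _).2 ⟨0, rfl⟩, _, (hm _ _).2 ⟨0, rfl⟩, rfl⟩) he
    obtain ⟨s, rfl⟩ := (hm _ _).1 hx
    obtain ⟨t, rfl⟩ := (hm _ _).1 hy
    exact ⟨s, t, by rwa [← hd]⟩

end Pool.Agent.MP_e7f0cc_co
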