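import Mathlib

/-! A verified contraction test for polynomial systems. -/

namespace Pool.Agent.MP_e7f0cc_co

inductive Ex
  | var (k : ℕ)
  | add (a b : Ex)
  | sub (a b : Ex)
  | mul (a b : Ex)

namespace Ex

def ev (x : ℕ → ℝ) : Ex → ℝ
  | var k => x k
  | add a b => a.ev x + b.ev x
  | sub a b => a.ev x - b.ev x
  | mul a b => a.ev x * b.ev x

def v0 (x0 : ℕ → ℚ) : Ex → ℚ
  | var k => x0 k
  | add a b => a.v0 x0 + b.v0 x0
  | sub a b => a.v0 x0 - b.v0 x0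
  | mul a b => a.v0 x0 * b.v0 x0

def gr (x0 : ℕ → ℚ) (A : ℕ → ℚ) : Ex → ℚ
  | var k => A k
  | add a b => a.gr x0 A + b.gr x0 A
  | sub a b => a.gr x0 A - b.gr x0 A
  | mul a b => a.v0 x0 * b.gr x0 A + b.v0 x0 * a.gr x0 A

def lip (x0 : ℕ → ℚ) (l ρ : ℚ) : Ex → ℚ
  | var _ => l
  | add a b => a.lip x0 l ρ + b.lip x0 l ρ
  | sub a b => a.lip x0 l ρ + b.lip x0 l ρ
  | mul a b => (|a.v0 x0| + a.lip x0 l ρ * ρ) * b.lip x0 l ρ + (|b.v0 x0| + b.lip x0 l ρ * ρ) * a.lip x0 l ρ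

def rem (x0 : ℕ → ℚ) (l ρ : ℚ) : Ex → ℚ
  | var _ => 0
  | add a b => a.rem x0 l ρ + b.rem x0 l ρ
  | sub a b => a.rem x0 l ρ + b.rem x0 l ρ
  | mul a b => |a.v0 x0| * b.rem x0 l ρ + |b.v0 x0| * a.rem x0 l ρ + 2 * ρ * a.lip x0 l ρ * b.lip x0 l ρ

end Ex

section
variable {n : ℕ} (x0 : ℕ → ℚ) (A : ℕ → ℕ → ℚ) (l ρ : ℚ)

def pt (z : Fin n → ℝ) (k : ℕ) : ℝ := x0 k + ∑ m : Fin n, (A m k : ℝ) * z m

lemma ev_zero (e : Ex) : e.ev (pt x0 A (0 : Fin n → ℝ)) = e.v0 x0 := by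
  induction e with
  | var k => simp [Ex.ev, Ex.v0, pt]
  | add a b ha hb => simp [Ex.ev, Ex.v0, ha, hb]
  | sub a b ha hb => simp [Ex.ev, Ex.v0, ha, hb]
  | mul a b ha hb => simp [Ex.ev, Ex.v0, ha, hb]

lemma sum_le (c : Fin n → ℝ) (w : Fin n → ℝ) : |∑ m, c m * w m| ≤ (∑ m, |c m|) * ‖w‖ := by
  rw [Finset.sum_mul]
  refine (Finset.abs_sum_le_sum_abs _ _).trans (Finset.sum_le_sum fun m _ => ?_)
  rw [abs_mul]
  exact mul_le_mul_of_nonneg_left (norm_le_pi_norm w m) (abs_nonneg _)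

variable {x0 A l ρ}

lemma lip_nonneg (hl : 0 ≤ l) (hρ : 0 ≤ ρ) (e : Ex) : 0 ≤ e.lip x0 l ρ := by
  induction e with
  | var k => exact hl
  | add a b ha hb => simp only [Ex.lip]; positivity
  | sub a b ha hb => simp only [Ex.lip]; positivity
  | mul a b ha hb => simp only [Ex.lip]; positivity

lemma lip_sound (hl : 0 ≤ l) (hρ : 0 ≤ ρ) (hA : ∀ k, ∑ m : Fin n, |(A m k : ℝ)| ≤ l) (e : Ex) :
    ∀ z w : Fin n → ℝ, ‖z‖ ≤ ρ → ‖w‖ ≤ ρ →
      |e.ev (pt x0 A z) - e.ev (pt x0 A w)| ≤ e.lip x0 l ρ * ‖z - w‖ := by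
  induction e with
  | var k =>
    intro z w _ _
    have : pt x0 A z k - pt x0 A w k = ∑ m : Fin n, (A m k : ℝ) * (z - w) m := by
      simp only [pt, Pi.sub_apply, mul_sub, Finset.sum_sub_distrib]; ring
    simp only [Ex.ev, Ex.lip, this]
    exact (sum_le _ _).trans (mul_le_mul_of_nonneg_right (hA k) (norm_nonneg _))
  | add a b ha hb =>
    intro z w hz hw
    have h1 := ha z w hz hw
    have h2 := hb z w hz hw
    simp only [Ex.ev, Ex.lip]
    push_cast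
    rw [abs_le] at *
    constructor <;> linarith [h1.1, h1.2, h2.1, h2.2]
  | sub a b ha hb =>
    intro z w hz hw
    have h1 := ha z w hz hw
    have h2 := hb z w hz hw
    simp only [Ex.ev, Ex.lip]
    push_cast
    rw [abs_le] at *
    constructor <;> linarith [h1.1, h1.2, h2.1, h2.2]
  | mul a b ha hb =>
    intro z w hz hw
    have h0 : ‖(0 : Fin n → ℝ)‖ ≤ ρ := by simpa using hρ
    have h1 := ha z w hz hw
    have h2 := hb z w hz hw
    have h3 := ha z 0 hz h0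
    have h4 := hb w 0 hw h0
    have la : (0 : ℝ) ≤ a.lip x0 l ρ := by exact_mod_cast lip_nonneg hl hρ a
    have lb : (0 : ℝ) ≤ b.lip x0 l ρ := by exact_mod_cast lip_nonneg hl hρ b
    rw [ev_zero, sub_zero] at h3 h4
    have h5 : |a.ev (pt x0 A z)| ≤ |(a.v0 x0 : ℝ)| + a.lip x0 l ρ * ρ := by
      have := abs_sub_abs_le_abs_sub (a.ev (pt x0 A z)) (a.v0 x0 : ℝ)
      have := mul_le_mul_of_nonneg_left hz la
      linarith
    have h6 : |b.ev (pt x0 A w)| ≤ |(b.v0 x0 : ℝ)| + b.lip x0 l ρ * ρ := by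
      have := abs_sub_abs_le_abs_sub (b.ev (pt x0 A w)) (b.v0 x0 : ℝ)
      have := mul_le_mul_of_nonneg_left hw lb
      linarith
    simp only [Ex.ev, Ex.lip]
    push_cast
    rw [show a.ev (pt x0 A z) * b.ev (pt x0 A z) - a.ev (pt x0 A w) * b.ev (pt x0 A w)
      = a.ev (pt x0 A z) * (b.ev (pt x0 A z) - b.ev (pt x0 A w))
        + b.ev (pt x0 A w) * (a.ev (pt x0 A z) - a.ev (pt x0 A w)) by ring]
    refine (abs_add_le _ _).trans ?_
    rw [abs_mul, abs_mul]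
    have h7 := mul_le_mul h5 h2 (abs_nonneg _) ((abs_nonneg _).trans h5)
    have h8 := mul_le_mul h6 h1 (abs_nonneg _) ((abs_nonneg _).trans h6)
    linarith

lemma rem_sound (hl : 0 ≤ l) (hρ : 0 ≤ ρ) (hA : ∀ k, ∑ m : Fin n, |(A m k : ℝ)| ≤ l) (e : Ex) :
    ∀ z w : Fin n → ℝ, ‖z‖ ≤ ρ → ‖w‖ ≤ ρ →
      |e.ev (pt x0 A z) - e.ev (pt x0 A w) - ∑ m : Fin n, (e.gr x0 (A m) : ℝ) * (z - w) m|
        ≤ e.rem x0 l ρ * ‖z - w‖ := by
  induction e with
  | var k =>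
    intro z w _ _
    have : pt x0 A z k - pt x0 A w k = ∑ m : Fin n, (A m k : ℝ) * (z - w) m := by
      simp only [pt, Pi.sub_apply, mul_sub, Finset.sum_sub_distrib]; ring
    simp [Ex.ev, Ex.rem, Ex.gr, this]
  | add a b ha hb =>
    intro z w hz hw
    have h1 := ha z w hz hw
    have h2 := hb z w hz hw
    simp only [Ex.ev, Ex.rem, Ex.gr]
    push_cast
    simp only [add_mul, Finset.sum_add_distrib]
    rw [abs_le] at *
    constructor <;> linarith [h1.1, h1.2, h2.1, h2.2]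
  | sub a b ha hb =>
    intro z w hz hw
    have h1 := ha z w hz hw
    have h2 := hb z w hz hw
    simp only [Ex.ev, Ex.rem, Ex.gr]
    push_cast
    simp only [add_mul, sub_mul, Finset.sum_sub_distrib]
    rw [abs_le] at *
    constructor <;> linarith [h1.1, h1.2, h2.1, h2.2]
  | mul a b ha hb =>
    intro z w hz hw
    have h0 : ‖(0 : Fin n → ℝ)‖ ≤ ρ := by simpa using hρ
    have h1 := ha z w hz hw
    have h2 := hb z w hz hw
    have h3 := lip_sound (x0 := x0) hl hρ hA a z 0 hz h0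
    have h4 := lip_sound (x0 := x0) hl hρ hA b w 0 hw h0
    have g1 := lip_sound (x0 := x0) hl hρ hA a z w hz hw
    have g2 := lip_sound (x0 := x0) hl hρ hA b z w hz hw
    have la : (0 : ℝ) ≤ a.lip x0 l ρ := by exact_mod_cast lip_nonneg hl hρ a
    have lb : (0 : ℝ) ≤ b.lip x0 l ρ := by exact_mod_cast lip_nonneg hl hρ b
    rw [ev_zero, sub_zero] at h3 h4
    have h5 := h3.trans (mul_le_mul_of_nonneg_left hz la)
    have h6 := h4.trans (mul_le_mul_of_nonneg_left hw lb)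
    simp only [Ex.ev, Ex.rem, Ex.gr]
    push_cast
    simp only [add_mul, Finset.sum_add_distrib, mul_assoc, ← Finset.mul_sum]
    generalize ∑ m : Fin n, (a.gr x0 (A m) : ℝ) * (z - w) m = sa at *
    generalize ∑ m : Fin n, (b.gr x0 (A m) : ℝ) * (z - w) m = sb at *
    rw [show a.ev (pt x0 A z) * b.ev (pt x0 A z) - a.ev (pt x0 A w) * b.ev (pt x0 A w)
        - ((a.v0 x0 : ℝ) * sb + (b.v0 x0 : ℝ) * sa)
      = (a.v0 x0 : ℝ) * (b.ev (pt x0 A z) - b.ev (pt x0 A w) - sb)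
        + (b.v0 x0 : ℝ) * (a.ev (pt x0 A z) - a.ev (pt x0 A w) - sa)
        + ((a.ev (pt x0 A z) - a.v0 x0) * (b.ev (pt x0 A z) - b.ev (pt x0 A w))
        + (b.ev (pt x0 A w) - b.v0 x0) * (a.ev (pt x0 A z) - a.ev (pt x0 A w))) by ring]
    refine (abs_add_le _ _).trans (add_le_add ((abs_add_le _ _).trans ?_) ((abs_add_le _ _).trans ?_))
    · rw [abs_mul, abs_mul]
      exact add_le_add (mul_le_mul_of_nonneg_left h2 (abs_nonneg _))
        (mul_le_mul_of_nonneg_left h1 (abs_nonneg _))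
    · rw [abs_mul, abs_mul]
      have h7 := mul_le_mul h5 g2 (abs_nonneg _) ((abs_nonneg _).trans h5)
      have h8 := mul_le_mul h6 g1 (abs_nonneg _) ((abs_nonneg _).trans h6)
      linarith

theorem newton (hl : 0 ≤ l) (hρ : 0 ≤ ρ) (hA : ∀ k, ∑ m : Fin n, |(A m k : ℝ)| ≤ l) (F : Fin n → Ex)
    (h1 : ∀ i, |(F i).v0 x0| ≤ ρ / 2)
    (h2 : ∀ i, ∑ m : Fin n, |(if m = i then 1 else 0) - (F i).gr x0 (A m)| + (F i).rem x0 l ρ ≤ 1 / 2) :
    ∃ z : Fin n → ℝ, ‖z‖ ≤ ρ ∧ ∀ i, (F i).ev (pt x0 A z) = 0 := by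
  let T : (Fin n → ℝ) → Fin n → ℝ := fun z i => z i - (F i).ev (pt x0 A z)
  have hρ' : (0 : ℝ) ≤ ρ := by exact_mod_cast hρ
  have h0 : ‖(0 : Fin n → ℝ)‖ ≤ ρ := by simpa using hρ
  have key : ∀ z w : Fin n → ℝ, ‖z‖ ≤ ρ → ‖w‖ ≤ ρ → ‖T z - T w‖ ≤ 1 / 2 * ‖z - w‖ := by
    intro z w hz hw
    rw [pi_norm_le_iff_of_nonneg (by positivity)]
    intro i
    have a1 := rem_sound (x0 := x0) hl hρ hA (F i) z w hz hw
    have a2 := sum_le (fun m : Fin n => (if m = i then 1 else 0) - ((F i).gr x0 (A m) : ℝ)) (z - w)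
    have a3 : ∑ m : Fin n, |(if m = i then 1 else 0) - ((F i).gr x0 (A m) : ℝ)|
        + ((F i).rem x0 l ρ : ℝ) ≤ 1 / 2 := by
      have := (Rat.cast_le (K := ℝ)).2 (h2 i)
      push_cast [apply_ite] at this
      simpa using this
    have a4 := mul_le_mul_of_nonneg_right a3 (norm_nonneg (z - w))
    simp only [sub_mul, Finset.sum_sub_distrib, ite_mul, one_mul, zero_mul, Finset.sum_ite_eq',
      Finset.mem_univ, if_true] at a2
    rw [Real.norm_eq_abs]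
    simp only [T, Pi.sub_apply] at *
    rw [abs_le] at *
    constructor <;> linarith [a1.1, a1.2, a2.1, a2.2]
  have hT0 : ‖T 0‖ ≤ ρ / 2 := by
    rw [pi_norm_le_iff_of_nonneg (by positivity)]
    intro i
    have := (Rat.cast_le (K := ℝ)).2 (h1 i)
    simp only [T, ev_zero, Pi.zero_apply, zero_sub, norm_neg, Real.norm_eq_abs]
    push_cast at this
    exact this
  have hm : Set.MapsTo T (Metric.closedBall 0 ρ) (Metric.closedBall 0 ρ) := by
    intro z hz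
    rw [mem_closedBall_zero_iff] at *
    have := key z 0 hz h0
    have h3 := norm_sub_norm_le (T z) (T 0)
    rw [sub_zero] at this
    linarith
  have hc : ContractingWith (1 / 2 : NNReal) (hm.restrict T _ _) := by
    refine ⟨by norm_num, LipschitzWith.of_dist_le_mul fun z w => ?_⟩
    have := key z w (mem_closedBall_zero_iff.1 z.2) (mem_closedBall_zero_iff.1 w.2)
    simpa [Subtype.dist_eq, dist_eq_norm] using this
  obtain ⟨z, hz, hf, -⟩ := hc.exists_fixedPoint' Metric.isClosed_closedBall.isComplete hm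
    (Metric.mem_closedBall_self hρ') (edist_ne_top _ _)
  refine ⟨z, mem_closedBall_zero_iff.1 hz, fun i => ?_⟩
  have := congrFun hf i
  simp only [T] at this
  linarith

lemma ne_zero_of_lip (hl : 0 ≤ l) (hρ : 0 ≤ ρ) (hA : ∀ k, ∑ m : Fin n, |(A m k : ℝ)| ≤ l) (e : Ex)
    (h : e.lip x0 l ρ * ρ < |e.v0 x0|) {z : Fin n → ℝ} (hz : ‖z‖ ≤ ρ) : e.ev (pt x0 A z) ≠ 0 := by
  intro h0
  have h1 := lip_sound (x0 := x0) hl hρ hA e z 0 hz (by simpa using hρ)
  have la : (0 : ℝ) ≤ e.lip x0 l ρ := by exact_mod_cast lip_nonneg hl hρ e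
  rw [h0, ev_zero, sub_zero, zero_sub, abs_neg] at h1
  have h2 := h1.trans (mul_le_mul_of_nonneg_left hz la)
  have h3 := (Rat.cast_lt (K := ℝ)).2 h
  push_cast at h3
  linarith

end

end Pool.Agent.MP_e7f0cc_co
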