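import Pool.Agent.MP_e7f0cc_co.Data0
import Pool.Agent.MP_e7f0cc_co.Data1
import Pool.Agent.MP_e7f0cc_co.Data2
import Pool.Agent.MP_e7f0cc_co.Data3

/-! No good configuration of eight lines. -/

namespace Pool.Agent.MP_e7f0cc_co

theorem upto4 : ∀ t < 4, NoCfg TT t := by
  intro t ht c h _ hl
  interval_cases t
  · exact rule0_ok c h hl
  · exact rule1_ok c hl
  · exact rule2_ok c h hl
  · exact rule3_ok c h hl

theorem upto_succ {n code : ℕ} (h4 : 4 ≤ n) (H : ∀ t < n, NoCfg TT t) (h : stepOK TT n code = true) :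
    ∀ t < n + 1, NoCfg TT t := by
  intro t ht
  rcases Nat.lt_succ_iff_lt_or_eq.1 ht with h' | rfl
  · exact H t h'
  · exact step_sound TT _ code h4 H h

theorem upto5 : ∀ t < 5, NoCfg TT t := upto_succ (by norm_num) upto4 ok4
theorem upto6 : ∀ t < 6, NoCfg TT t := upto_succ (by norm_num) upto5 ok5
theorem upto7 : ∀ t < 7, NoCfg TT t := upto_succ (by norm_num) upto6 ok6
theorem upto8 : ∀ t < 8, NoCfg TT t := upto_succ (by norm_num) upto7 ok7
theorem upto9 : ∀ t < 9, NoCfg TT t := upto_succ (by norm_num) upto8 ok8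
theorem upto10 : ∀ t < 10, NoCfg TT t := upto_succ (by norm_num) upto9 ok9
theorem upto11 : ∀ t < 11, NoCfg TT t := upto_succ (by norm_num) upto10 ok10
theorem upto12 : ∀ t < 12, NoCfg TT t := upto_succ (by norm_num) upto11 ok11
theorem upto13 : ∀ t < 13, NoCfg TT t := upto_succ (by norm_num) upto12 ok12
theorem upto14 : ∀ t < 14, NoCfg TT t := upto_succ (by norm_num) upto13 ok13
theorem upto15 : ∀ t < 15, NoCfg TT t := upto_succ (by norm_num) upto14 ok14
theorem upto16 : ∀ t < 16, NoCfg TT t := upto_succ (by norm_num) upto15 ok15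
theorem upto17 : ∀ t < 17, NoCfg TT t := upto_succ (by norm_num) upto16 ok16
theorem upto18 : ∀ t < 18, NoCfg TT t := upto_succ (by norm_num) upto17 ok17
theorem upto19 : ∀ t < 19, NoCfg TT t := upto_succ (by norm_num) upto18 ok18
theorem upto20 : ∀ t < 20, NoCfg TT t := upto_succ (by norm_num) upto19 ok19
theorem upto21 : ∀ t < 21, NoCfg TT t := upto_succ (by norm_num) upto20 ok20
theorem upto22 : ∀ t < 22, NoCfg TT t := upto_succ (by norm_num) upto21 ok21
theorem upto23 : ∀ t < 23, NoCfg TT t := upto_succ (by norm_num) upto22 ok22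
theorem upto24 : ∀ t < 24, NoCfg TT t := upto_succ (by norm_num) upto23 ok23
theorem upto25 : ∀ t < 25, NoCfg TT t := upto_succ (by norm_num) upto24 ok24
theorem upto26 : ∀ t < 26, NoCfg TT t := upto_succ (by norm_num) upto25 ok25
theorem upto27 : ∀ t < 27, NoCfg TT t := upto_succ (by norm_num) upto26 ok26
theorem upto28 : ∀ t < 28, NoCfg TT t := upto_succ (by norm_num) upto27 ok27
theorem upto29 : ∀ t < 29, NoCfg TT t := upto_succ (by norm_num) upto28 ok28
theorem upto30 : ∀ t < 30, NoCfg TT t := upto_succ (by norm_num) upto29 ok29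
theorem upto31 : ∀ t < 31, NoCfg TT t := upto_succ (by norm_num) upto30 ok30
theorem upto32 : ∀ t < 32, NoCfg TT t := upto_succ (by norm_num) upto31 ok31
theorem upto33 : ∀ t < 33, NoCfg TT t := upto_succ (by norm_num) upto32 ok32
theorem upto34 : ∀ t < 34, NoCfg TT t := upto_succ (by norm_num) upto33 ok33
theorem upto35 : ∀ t < 35, NoCfg TT t := upto_succ (by norm_num) upto34 ok34
theorem upto36 : ∀ t < 36, NoCfg TT t := upto_succ (by norm_num) upto35 ok35
theorem upto37 : ∀ t < 37, NoCfg TT t := upto_succ (by norm_num) upto36 ok36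
theorem upto38 : ∀ t < 38, NoCfg TT t := upto_succ (by norm_num) upto37 ok37
theorem upto39 : ∀ t < 39, NoCfg TT t := upto_succ (by norm_num) upto38 ok38
theorem upto40 : ∀ t < 40, NoCfg TT t := upto_succ (by norm_num) upto39 ok39
theorem upto41 : ∀ t < 41, NoCfg TT t := upto_succ (by norm_num) upto40 ok40
theorem upto42 : ∀ t < 42, NoCfg TT t := upto_succ (by norm_num) upto41 ok41
theorem upto43 : ∀ t < 43, NoCfg TT t := upto_succ (by norm_num) upto42 ok42
theorem upto44 : ∀ t < 44, NoCfg TT t := upto_succ (by norm_num) upto43 ok43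
theorem upto45 : ∀ t < 45, NoCfg TT t := upto_succ (by norm_num) upto44 ok44
theorem upto46 : ∀ t < 46, NoCfg TT t := upto_succ (by norm_num) upto45 ok45
theorem upto47 : ∀ t < 47, NoCfg TT t := upto_succ (by norm_num) upto46 ok46
theorem upto48 : ∀ t < 48, NoCfg TT t := upto_succ (by norm_num) upto47 ok47
theorem upto49 : ∀ t < 49, NoCfg TT t := upto_succ (by norm_num) upto48 ok48
theorem upto50 : ∀ t < 50, NoCfg TT t := upto_succ (by norm_num) upto49 ok49
theorem upto51 : ∀ t < 51, NoCfg TT t := upto_succ (by norm_num) upto50 ok50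
theorem upto52 : ∀ t < 52, NoCfg TT t := upto_succ (by norm_num) upto51 ok51
theorem upto53 : ∀ t < 53, NoCfg TT t := upto_succ (by norm_num) upto52 ok52
theorem upto54 : ∀ t < 54, NoCfg TT t := upto_succ (by norm_num) upto53 ok53
theorem upto55 : ∀ t < 55, NoCfg TT t := upto_succ (by norm_num) upto54 ok54
theorem upto56 : ∀ t < 56, NoCfg TT t := upto_succ (by norm_num) upto55 ok55
theorem upto57 : ∀ t < 57, NoCfg TT t := upto_succ (by norm_num) upto56 ok56
theorem upto58 : ∀ t < 58, NoCfg TT t := upto_succ (by norm_num) upto57 ok57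
theorem upto59 : ∀ t < 59, NoCfg TT t := upto_succ (by norm_num) upto58 ok58
theorem upto60 : ∀ t < 60, NoCfg TT t := upto_succ (by norm_num) upto59 ok59
theorem upto61 : ∀ t < 61, NoCfg TT t := upto_succ (by norm_num) upto60 ok60
theorem upto62 : ∀ t < 62, NoCfg TT t := upto_succ (by norm_num) upto61 ok61
theorem upto63 : ∀ t < 63, NoCfg TT t := upto_succ (by norm_num) upto62 ok62
theorem upto64 : ∀ t < 64, NoCfg TT t := upto_succ (by norm_num) upto63 ok63
theorem upto65 : ∀ t < 65, NoCfg TT t := upto_succ (by norm_num) upto64 ok64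
theorem upto66 : ∀ t < 66, NoCfg TT t := upto_succ (by norm_num) upto65 ok65
theorem upto67 : ∀ t < 67, NoCfg TT t := upto_succ (by norm_num) upto66 ok66
theorem upto68 : ∀ t < 68, NoCfg TT t := upto_succ (by norm_num) upto67 ok67
theorem upto69 : ∀ t < 69, NoCfg TT t := upto_succ (by norm_num) upto68 ok68
theorem upto70 : ∀ t < 70, NoCfg TT t := upto_succ (by norm_num) upto69 ok69
theorem upto71 : ∀ t < 71, NoCfg TT t := upto_succ (by norm_num) upto70 ok70
theorem upto72 : ∀ t < 72, NoCfg TT t := upto_succ (by norm_num) upto71 ok71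
theorem upto73 : ∀ t < 73, NoCfg TT t := upto_succ (by norm_num) upto72 ok72
theorem upto74 : ∀ t < 74, NoCfg TT t := upto_succ (by norm_num) upto73 ok73
theorem upto75 : ∀ t < 75, NoCfg TT t := upto_succ (by norm_num) upto74 ok74
theorem upto76 : ∀ t < 76, NoCfg TT t := upto_succ (by norm_num) upto75 ok75
theorem upto77 : ∀ t < 77, NoCfg TT t := upto_succ (by norm_num) upto76 ok76
theorem upto78 : ∀ t < 78, NoCfg TT t := upto_succ (by norm_num) upto77 ok77
theorem upto79 : ∀ t < 79, NoCfg TT t := upto_succ (by norm_num) upto78 ok78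
theorem upto80 : ∀ t < 80, NoCfg TT t := upto_succ (by norm_num) upto79 ok79
theorem upto81 : ∀ t < 81, NoCfg TT t := upto_succ (by norm_num) upto80 ok80
theorem upto82 : ∀ t < 82, NoCfg TT t := upto_succ (by norm_num) upto81 ok81
theorem upto83 : ∀ t < 83, NoCfg TT t := upto_succ (by norm_num) upto82 ok82
theorem upto84 : ∀ t < 84, NoCfg TT t := upto_succ (by norm_num) upto83 ok83
theorem upto85 : ∀ t < 85, NoCfg TT t := upto_succ (by norm_num) upto84 ok84
theorem upto86 : ∀ t < 86, NoCfg TT t := upto_succ (by norm_num) upto85 ok85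
theorem upto87 : ∀ t < 87, NoCfg TT t := upto_succ (by norm_num) upto86 ok86
theorem upto88 : ∀ t < 88, NoCfg TT t := upto_succ (by norm_num) upto87 ok87
theorem upto89 : ∀ t < 89, NoCfg TT t := upto_succ (by norm_num) upto88 ok88
theorem upto90 : ∀ t < 90, NoCfg TT t := upto_succ (by norm_num) upto89 ok89
theorem upto91 : ∀ t < 91, NoCfg TT t := upto_succ (by norm_num) upto90 ok90
theorem upto92 : ∀ t < 92, NoCfg TT t := upto_succ (by norm_num) upto91 ok91
theorem upto93 : ∀ t < 93, NoCfg TT t := upto_succ (by norm_num) upto92 ok92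
theorem upto94 : ∀ t < 94, NoCfg TT t := upto_succ (by norm_num) upto93 ok93
theorem upto95 : ∀ t < 95, NoCfg TT t := upto_succ (by norm_num) upto94 ok94
theorem upto96 : ∀ t < 96, NoCfg TT t := upto_succ (by norm_num) upto95 ok95
theorem upto97 : ∀ t < 97, NoCfg TT t := upto_succ (by norm_num) upto96 ok96

theorem no_good (c : Cfg) : ¬ Good c := fun h =>
  upto97 96 (by norm_num) c h.1 (fun _ => h) (fun l hl => by
    have : TT 96 = [] := rfl
    rw [this] at hl; simp at hl)

end Pool.Agent.MP_e7f0cc_co
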