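import Mathlib

/-! Sign rules for directions and moments of lines at pairwise distance one. -/

namespace Pool.Agent.MP_e7f0cc_co

abbrev E3 := EuclideanSpace ℝ (Fin 3)

def dt (u v : E3) : ℝ := u 0 * v 0 + u 1 * v 1 + u 2 * v 2

noncomputable def cr (u v : E3) : E3 :=
  !₂[u 1 * v 2 - u 2 * v 1, u 2 * v 0 - u 0 * v 2, u 0 * v 1 - u 1 * v 0]

@[simp] lemma cr0 (u v : E3) : cr u v 0 = u 1 * v 2 - u 2 * v 1 := rfl
@[simp] lemma cr1 (u v : E3) : cr u v 1 = u 2 * v 0 - u 0 * v 2 := rfl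
@[simp] lemma cr2 (u v : E3) : cr u v 2 = u 0 * v 1 - u 1 * v 0 := rfl

noncomputable def det3 (a b c : E3) : ℝ := dt a (cr b c)

def rr (x mx y my : E3) : ℝ := dt x my + dt y mx

lemma ext3 {u v : E3} (h0 : u 0 = v 0) (h1 : u 1 = v 1) (h2 : u 2 = v 2) : u = v := by
  ext i; fin_cases i <;> assumption

lemma nsq (u : E3) : ‖u‖ ^ 2 = dt u u := by
  rw [EuclideanSpace.norm_sq_eq, Fin.sum_univ_three]
  simp only [Real.norm_eq_abs, sq_abs, dt]; ring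

lemma lagrange (u v : E3) : ‖cr u v‖ ^ 2 = ‖u‖ ^ 2 * ‖v‖ ^ 2 - dt u v ^ 2 := by
  simp only [nsq, dt, cr0, cr1, cr2]; ring

lemma strict_tri {X Z : E3} (h : cr X Z ≠ 0) : ‖X - Z‖ < ‖X‖ + ‖Z‖ := by
  refine lt_of_le_of_ne (norm_sub_le _ _) fun he => h ?_
  have h1 : ‖X - Z‖ ^ 2 = ‖X‖ ^ 2 + ‖Z‖ ^ 2 - 2 * dt X Z := by
    simp only [nsq, dt, PiLp.sub_apply]; ring
  have h2 : dt X Z = -(‖X‖ * ‖Z‖) := by
    rw [he] at h1; nlinarith
  have h3 := lagrange X Z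
  rw [h2] at h3
  have : ‖cr X Z‖ ^ 2 = 0 := by rw [h3]; ring
  simpa using this

lemma cramer (a b c p : E3) (h : det3 a b c ≠ 0) :
    p = (det3 p b c / det3 a b c) • a + (det3 a p c / det3 a b c) • b
      + (det3 a b p / det3 a b c) • c := by
  apply ext3 <;> simp only [PiLp.add_apply, PiLp.smul_apply, smul_eq_mul] <;> field_simp <;>
    simp only [det3, dt, cr0, cr1, cr2] <;> ring

lemma abs_scale {r t : ℝ} {w W : E3} (h : |r| = ‖w‖) (hW : W = t • w) : |t * r| = ‖W‖ := by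
  rw [hW, norm_smul, abs_mul, h, Real.norm_eq_abs]

/-- Normal form for five lines. -/
lemma frame (a b c p q ma mb mc mp mq : E3)
    (sa : dt a ma = 0) (sb : dt b mb = 0) (sc : dt c mc = 0) (sp : dt p mp = 0) (sq : dt q mq = 0)
    (hab : |rr a ma b mb| = ‖cr a b‖) (hac : |rr a ma c mc| = ‖cr a c‖)
    (hbc : |rr b mb c mc| = ‖cr b c‖) (hap : |rr a ma p mp| = ‖cr a p‖)
    (hbp : |rr b mb p mp| = ‖cr b p‖) (hcp : |rr c mc p mp| = ‖cr c p‖)
    (haq : |rr a ma q mq| = ‖cr a q‖) (hbq : |rr b mb q mq| = ‖cr b q‖)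
    (hcq : |rr c mc q mq| = ‖cr c q‖) (hpq : |rr p mp q mq| = ‖cr p q‖)
    (d0 : 0 < det3 a b c) (d1 : 0 < det3 p b c) (d2 : 0 < det3 a p c) (d3 : 0 < det3 a b p) :
    ∃ (X Y Z : E3) (x y z α β γ : ℝ), 0 < x ∧ 0 < y ∧ 0 < z ∧ cr X Z ≠ 0 ∧
      det3 q b c = α * det3 p b c ∧ det3 a q c = β * det3 a p c ∧ det3 a b q = γ * det3 a b p ∧
      det3 a p q = (γ - β) * (y * z * det3 a b c) ∧ det3 c p q = (β - α) * (x * y * det3 a b c) ∧
      det3 b p q = (α - γ) * (x * z * det3 a b c) ∧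
      |x * y * rr a ma b mb| = ‖Z‖ ∧ |x * z * rr a ma c mc| = ‖Y‖ ∧ |y * z * rr b mb c mc| = ‖X‖ ∧
      |x * rr a ma p mp| = ‖Z - Y‖ ∧ |y * rr b mb p mp| = ‖X - Z‖ ∧ |z * rr c mc p mp| = ‖Y - X‖ ∧
      |x * rr a ma q mq| = ‖β • Z - γ • Y‖ ∧ |y * rr b mb q mq| = ‖γ • X - α • Z‖ ∧
      |z * rr c mc q mq| = ‖α • Y - β • X‖ ∧
      |rr p mp q mq| = ‖(β - γ) • (Z - X) + (α - γ) • (Y - Z)‖ ∧
      x * y * rr a ma b mb + x * z * rr a ma c mc + y * z * rr b mb c mc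
        - x * rr a ma p mp - y * rr b mb p mp - z * rr c mc p mp = 0 ∧
      α * β * (x * y * rr a ma b mb) + α * γ * (x * z * rr a ma c mc) + β * γ * (y * z * rr b mb c mc)
        - α * (x * rr a ma q mq) - β * (y * rr b mb q mq) - γ * (z * rr c mc q mq) = 0 ∧
      (α + β) * (x * y * rr a ma b mb) + (α + γ) * (x * z * rr a ma c mc)
        + (β + γ) * (y * z * rr b mb c mc)
        - x * rr a ma q mq - y * rr b mb q mq - z * rr c mc q mq
        - α * (x * rr a ma p mp) - β * (y * rr b mb p mp) - γ * (z * rr c mc p mp)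
        + rr p mp q mq = 0 := by
  obtain ⟨x, y, z, hx, hy, hz, rfl⟩ : ∃ x y z : ℝ, 0 < x ∧ 0 < y ∧ 0 < z ∧
      p = x • a + y • b + z • c :=
    ⟨_, _, _, div_pos d1 d0, div_pos d2 d0, div_pos d3 d0, cramer a b c p d0.ne'⟩
  obtain ⟨α, β, γ, rfl⟩ : ∃ α β γ : ℝ, q = (α * x) • a + (β * y) • b + (γ * z) • c := by
    refine ⟨det3 q b c / det3 a b c / x, det3 a q c / det3 a b c / y,
      det3 a b q / det3 a b c / z, ?_⟩
    rw [div_mul_cancel₀ _ hx.ne', div_mul_cancel₀ _ hy.ne', div_mul_cancel₀ _ hz.ne']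
    exact cramer a b c q d0.ne'
  refine ⟨(y * z) • cr b c, (x * z) • cr c a, (x * y) • cr a b, x, y, z, α, β, γ, hx, hy, hz, ?_,
    ?_, ?_, ?_, ?_, ?_, ?_, ?_, ?_, ?_, ?_, ?_, ?_, ?_, ?_, ?_, ?_, ?_, ?_, ?_⟩
  · intro h
    have h1 : dt (cr ((y * z) • cr b c) ((x * y) • cr a b)) (cr c a)
        = -(x * y * y * z * det3 a b c ^ 2) := by
      simp only [det3, dt, cr0, cr1, cr2, PiLp.smul_apply, smul_eq_mul]; ring
    rw [h] at h1
    have h2 : 0 < x * y * y * z * det3 a b c ^ 2 := by positivity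
    simp only [dt, PiLp.zero_apply] at h1
    linarith
  iterate 6
    simp only [det3, dt, cr0, cr1, cr2, PiLp.smul_apply, PiLp.add_apply, smul_eq_mul]; ring
  · exact abs_scale hab rfl
  · rw [← norm_neg]
    refine abs_scale hac ?_
    apply ext3 <;> simp only [cr0, cr1, cr2, PiLp.smul_apply, PiLp.neg_apply, smul_eq_mul] <;> ring
  · exact abs_scale hbc rfl
  iterate 3
    refine abs_scale (by assumption) ?_
    apply ext3 <;> simp only [cr0, cr1, cr2, PiLp.smul_apply, PiLp.add_apply, PiLp.sub_apply,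
      smul_eq_mul] <;> ring
  iterate 3
    refine abs_scale (by assumption) ?_
    apply ext3 <;> simp only [cr0, cr1, cr2, PiLp.smul_apply, PiLp.add_apply, PiLp.sub_apply,
      smul_eq_mul] <;> ring
  · rw [hpq]
    congr 1
    apply ext3 <;> simp only [cr0, cr1, cr2, PiLp.smul_apply, PiLp.add_apply, PiLp.sub_apply,
      smul_eq_mul] <;> ring
  · simp only [rr, dt, PiLp.smul_apply, PiLp.add_apply, smul_eq_mul] at *
    linear_combination (-x * x) * sa - y * y * sb - z * z * sc - sp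
  · simp only [rr, dt, PiLp.smul_apply, PiLp.add_apply, smul_eq_mul] at *
    linear_combination (-α * α * x * x) * sa - β * β * y * y * sb - γ * γ * z * z * sc - sq
  · simp only [rr, dt, PiLp.smul_apply, PiLp.add_apply, smul_eq_mul] at *
    linear_combination (-2 * α * x * x) * sa - 2 * β * y * y * sb - 2 * γ * z * z * sc

lemma nsm (t : ℝ) (ht : 0 ≤ t) (w : E3) : ‖t • w‖ = t * ‖w‖ := by
  rw [norm_smul, Real.norm_eq_abs, abs_of_nonneg ht]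

lemma core_R4 {X Y Z : E3} {ab ac bc ap bp cp : ℝ} (hXZ : cr X Z ≠ 0)
    (hab : |ab| = ‖Z‖) (hac : |ac| = ‖Y‖) (hbc : |bc| = ‖X‖) (hap : |ap| = ‖Z - Y‖)
    (hbp : |bp| = ‖X - Z‖) (hcp : |cp| = ‖Y - X‖) (e1 : ab + ac + bc - ap - bp - cp = 0)
    (s1 : 0 < ab) (s2 : 0 < bc) (s3 : cp < 0) (s4 : ap < 0) : False := by
  rw [abs_of_pos s1] at hab
  rw [abs_of_pos s2] at hbc
  rw [abs_of_neg s3] at hcp
  rw [abs_of_neg s4] at hap
  have t1 : ‖Y‖ ≤ ‖X‖ + ‖Y - X‖ := by simpa using norm_add_le X (Y - X)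
  have t2 : ‖Y‖ ≤ ‖Z‖ + ‖Z - Y‖ := by simpa using norm_sub_le Z (Z - Y)
  have t3 := strict_tri hXZ
  have t4 : ‖X - Z‖ ≤ ‖Y - X‖ + ‖Z - Y‖ := by
    have := norm_add_le (Y - X) (Z - Y)
    rwa [show Y - X + (Z - Y) = -(X - Z) by abel, norm_neg] at this
  linarith [neg_abs_le ac, le_abs_self bp]

lemma core_T1 {X Y Z : E3} {α β γ ab ac bc ap bp cp aq bq cq : ℝ}
    (hab : |ab| = ‖Z‖) (hbc : |bc| = ‖X‖) (hap : |ap| = ‖Z - Y‖)
    (hcp : |cp| = ‖Y - X‖) (haq : |aq| = ‖β • Z - γ • Y‖) (hcq : |cq| = ‖α • Y - β • X‖)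
    (e1 : ab + ac + bc - ap - bp - cp = 0)
    (e2 : α * β * ab + α * γ * ac + β * γ * bc - α * aq - β * bq - γ * cq = 0)
    (hβ : 0 < β) (hγ : β < γ) (hα : β < α)
    (s1 : 0 < ab) (s2 : 0 < bc) (s3 : 0 < aq) (s4 : 0 < cq) (s5 : 0 < bq) (s6 : bp < 0) : False := by
  rw [abs_of_pos s1] at hab
  rw [abs_of_pos s2] at hbc
  rw [abs_of_pos s3] at haq
  rw [abs_of_pos s4] at hcq
  have hα0 : 0 < α := by linarith
  have hγ0 : 0 < γ := by linarith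
  have t1 : γ * ‖Z - Y‖ ≤ ‖β • Z - γ • Y‖ + (γ - β) * ‖Z‖ := by
    rw [← nsm γ hγ0.le, ← nsm (γ - β) (by linarith),
      show γ • (Z - Y) = (β • Z - γ • Y) + (γ - β) • Z by module]
    exact norm_add_le _ _
  have t2 : α * ‖Y - X‖ ≤ ‖α • Y - β • X‖ + (α - β) * ‖X‖ := by
    rw [← nsm α hα0.le, ← nsm (α - β) (by linarith),
      show α • (Y - X) = (α • Y - β • X) - (α - β) • X by module]
    exact norm_sub_le _ _
  have u1 : γ * ap ≤ aq + (γ - β) * ab := by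
    have := mul_le_mul_of_nonneg_left (le_abs_self ap) hγ0.le
    rw [hap] at this; rw [haq, hab]; linarith
  have u2 : α * cp ≤ cq + (α - β) * bc := by
    have := mul_le_mul_of_nonneg_left (le_abs_self cp) hα0.le
    rw [hcp] at this; rw [hcq, hbc]; linarith
  have v1 := mul_le_mul_of_nonneg_left u1 hα0.le
  have v2 := mul_le_mul_of_nonneg_left u2 hγ0.le
  have v3 : 0 < β * bq := mul_pos hβ s5
  have v4 : α * γ * bp < 0 := mul_neg_of_pos_of_neg (mul_pos hα0 hγ0) s6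
  have e3 : α * γ * (ab + ac + bc - ap - bp - cp) = 0 := by rw [e1, mul_zero]
  nlinarith

lemma core_T2 {X Y Z : E3} {α β γ ab ac bc ap bp cp aq bq cq pq : ℝ} (hXZ : cr X Z ≠ 0)
    (hab : |ab| = ‖Z‖) (hac : |ac| = ‖Y‖) (hbc : |bc| = ‖X‖) (hap : |ap| = ‖Z - Y‖)
    (hbp : |bp| = ‖X - Z‖) (hcp : |cp| = ‖Y - X‖) (haq : |aq| = ‖β • Z - γ • Y‖)
    (hbq : |bq| = ‖γ • X - α • Z‖) (hcq : |cq| = ‖α • Y - β • X‖)
    (hpq : |pq| = ‖(β - γ) • (Z - X) + (α - γ) • (Y - Z)‖)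
    (e3 : (α + β) * ab + (α + γ) * ac + (β + γ) * bc - aq - bq - cq - α * ap - β * bp - γ * cp
      + pq = 0)
    (hγ : 0 < γ) (hα : γ < α) (hβ : γ < β)
    (s1 : 0 < ab) (s2 : 0 < ac) (s3 : 0 < bc) (s4 : 0 < pq) (s5 : ap < 0) (s6 : bq < 0) : False := by
  rw [abs_of_pos s1] at hab
  rw [abs_of_pos s2] at hac
  rw [abs_of_pos s3] at hbc
  rw [abs_of_pos s4] at hpq
  rw [abs_of_neg s5] at hap
  rw [abs_of_neg s6] at hbq
  have hα0 : 0 < α := by linarith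
  have hβ0 : 0 < β := by linarith
  have t1 : ‖β • Z - γ • Y‖ ≤ β * ‖Z‖ + γ * ‖Y‖ := by
    rw [← nsm β hβ0.le, ← nsm γ hγ.le]; exact norm_sub_le _ _
  have t2 : ‖α • Y - β • X‖ ≤ α * ‖Y‖ + β * ‖X‖ := by
    rw [← nsm β hβ0.le, ← nsm α hα0.le]; exact norm_sub_le _ _
  have t3 : γ * ‖Y - X‖ ≤ ‖γ • X - α • Z‖ + γ * ‖Z - Y‖ + (α - γ) * ‖Z‖ := by
    rw [← nsm γ hγ.le, ← nsm γ hγ.le, ← nsm (α - γ) (by linarith), ← norm_neg (γ • (Y - X)),
      show -(γ • (Y - X)) = (γ • X - α • Z) + γ • (Z - Y) + (α - γ) • Z by module]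
    exact norm_add₃_le
  have t4 : (β - γ) * ‖X - Z‖ ≤ ‖(β - γ) • (Z - X) + (α - γ) • (Y - Z)‖ + (α - γ) * ‖Z - Y‖ := by
    rw [← nsm (β - γ) (by linarith), ← nsm (α - γ) (by linarith), ← norm_neg ((β - γ) • (X - Z)),
      show -((β - γ) • (X - Z)) = ((β - γ) • (Z - X) + (α - γ) • (Y - Z)) + (α - γ) • (Z - Y) by
        module]
    exact norm_add_le _ _
  have t5 := mul_lt_mul_of_pos_left (strict_tri hXZ) hγ
  have u1 := le_abs_self aq
  have u2 := le_abs_self cq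
  have u3 := mul_le_mul_of_nonneg_left (le_abs_self bp) hβ0.le
  have u4 := mul_le_mul_of_nonneg_left (le_abs_self cp) hγ.le
  rw [haq] at u1
  rw [hcq] at u2
  rw [hbp] at u3
  rw [hcp] at u4
  have ha : ap = -‖Z - Y‖ := by linarith
  have hb : bq = -‖γ • X - α • Z‖ := by linarith
  rw [hab, hac, hbc, hpq, ha, hb] at e3
  nlinarith

lemma gp_id (o a b c d : E3) :
    det3 o a b * det3 o c d - det3 o a c * det3 o b d + det3 o a d * det3 o b c = 0 := by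
  simp only [det3, dt, cr0, cr1, cr2]; ring

end Pool.Agent.MP_e7f0cc_co
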