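import Pool.Agent.MP_e7f0cc_co.NoGood
import Pool.Agent.MP_e7f0cc_co.Dist

/-! No eight lines at pairwise distance one. -/

namespace Pool.Agent.MP_e7f0cc_co

/-- Three pairwise non-parallel lines at pairwise distance one have independent directions. -/
lemma circuit {u v w p q r : E3} (h12 : cr u v ≠ 0) (h13 : cr u w ≠ 0) (h23 : cr v w ≠ 0)
    (e12 : |dt (q - p) (cr u v)| = ‖cr u v‖) (e13 : |dt (r - p) (cr u w)| = ‖cr u w‖)
    (e23 : |dt (r - q) (cr v w)| = ‖cr v w‖) : det3 u v w ≠ 0 := by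
  intro h0
  have hn := norm_pos_iff.2 h12
  have hd : det3 u v (cr u v) = ‖cr u v‖ ^ 2 := by
    simp only [nsq, det3, dt, cr0, cr1, cr2]; ring
  have hd' : det3 u v (cr u v) ≠ 0 := by rw [hd]; positivity
  have e := cramer u v (cr u v) w hd'
  rw [h0, zero_div, zero_smul, add_zero] at e
  obtain ⟨a, b, rfl⟩ : ∃ a b : ℝ, w = a • u + b • v := ⟨_, _, e⟩
  have c1 : cr u (a • u + b • v) = b • cr u v := by
    apply ext3 <;> simp only [cr0, cr1, cr2, PiLp.add_apply, PiLp.smul_apply, smul_eq_mul] <;> ring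
  have c2 : cr v (a • u + b • v) = (-a) • cr u v := by
    apply ext3 <;> simp only [cr0, cr1, cr2, PiLp.add_apply, PiLp.smul_apply, smul_eq_mul] <;> ring
  have hs : ∀ (t : ℝ) (x y : E3), dt x (t • y) = t * dt x y := by
    intro t x y; simp only [dt, PiLp.smul_apply, smul_eq_mul]; ring
  rw [c1] at h13 e13
  rw [c2] at h23 e23
  have hb : |b| ≠ 0 := by rw [abs_ne_zero]; rintro rfl; simp at h13
  have ha : |-a| ≠ 0 := by rw [abs_ne_zero]; intro h; rw [h] at h23; simp at h23
  rw [hs, abs_mul, norm_smul, Real.norm_eq_abs] at e13 e23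
  have f13 := mul_left_cancel₀ hb e13
  have f23 := mul_left_cancel₀ ha e23
  have s : dt (r - p) (cr u v) = dt (q - p) (cr u v) + dt (r - q) (cr u v) := by
    simp only [dt, PiLp.sub_apply]; ring
  rcases (abs_eq hn.le).1 e12 with g1 | g1 <;> rcases (abs_eq hn.le).1 f13 with g2 | g2 <;>
    rcases (abs_eq hn.le).1 f23 with g3 | g3 <;> linarith

lemma det_zero_of_perp {a b c z : E3} (hz : z ≠ 0) (ha : dt a z = 0) (hb : dt b z = 0)
    (hc : dt c z = 0) : det3 a b c = 0 := by
  have hp := dt_pos hz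
  have : det3 a b c * dt z z = 0 := by
    simp only [det3, dt, cr0, cr1, cr2] at *
    linear_combination (z 0 * (b 1 * c 2 - b 2 * c 1) + z 1 * (b 2 * c 0 - b 0 * c 2)
        + z 2 * (b 0 * c 1 - b 1 * c 0)) * ha
      + (z 0 * (c 1 * a 2 - c 2 * a 1) + z 1 * (c 2 * a 0 - c 0 * a 2)
        + z 2 * (c 0 * a 1 - c 1 * a 0)) * hb
      + (z 0 * (a 1 * b 2 - a 2 * b 1) + z 1 * (a 2 * b 0 - a 0 * b 2)
        + z 2 * (a 0 * b 1 - a 1 * b 0)) * hc
  exact (mul_eq_zero.1 this).resolve_right hp.ne'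

/-- No four mutually parallel lines at pairwise distance one. -/
lemma four_par {z p q r s : E3} (hz : z ≠ 0)
    (e1 : ‖cr (q - p) z‖ = ‖z‖) (e2 : ‖cr (r - p) z‖ = ‖z‖) (e3 : ‖cr (s - p) z‖ = ‖z‖)
    (e4 : ‖cr (r - q) z‖ = ‖z‖) (e5 : ‖cr (s - q) z‖ = ‖z‖) (e6 : ‖cr (s - r) z‖ = ‖z‖) : False := by
  have hp := dt_pos hz
  have sq : ∀ {x : E3}, ‖x‖ = ‖z‖ → dt x x = dt z z := fun h => by rw [← nsq, ← nsq, h]
  have dif : ∀ x y : E3, cr (y - x) z = cr (y - p) z - cr (x - p) z := by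
    intro x y
    apply ext3 <;> simp only [cr0, cr1, cr2, PiLp.sub_apply] <;> ring
  rw [dif] at e4 e5 e6
  have perp : ∀ x : E3, dt (cr x z) z = 0 := by
    intro x; simp only [dt, cr0, cr1, cr2]; ring
  have h0 := det_zero_of_perp hz (perp (q - p)) (perp (r - p)) (perp (s - p))
  have f1 := sq e1
  have f2 := sq e2
  have f3 := sq e3
  have f4 := sq e4
  have f5 := sq e5
  have f6 := sq e6
  generalize cr (q - p) z = a at *
  generalize cr (r - p) z = b at *
  generalize cr (s - p) z = c at *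
  have ex : ∀ x y : E3, dt (y - x) (y - x) = dt x x + dt y y - 2 * dt x y := by
    intro x y; simp only [dt, PiLp.sub_apply]; ring
  rw [ex] at f4 f5 f6
  have gram : det3 a b c ^ 2 = dt a a * dt b b * dt c c + 2 * dt a b * dt a c * dt b c
      - dt a a * dt b c ^ 2 - dt b b * dt a c ^ 2 - dt c c * dt a b ^ 2 := by
    simp only [det3, dt, cr0, cr1, cr2]; ring
  have g1 : dt a b = dt z z / 2 := by linarith
  have g2 : dt a c = dt z z / 2 := by linarith
  have g3 : dt b c = dt z z / 2 := by linarith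
  rw [h0, f1, f2, f3, g1, g2, g3] at gram
  have : 0 < dt z z ^ 3 := by positivity
  nlinarith

/-- If two of the lines are parallel, a third direction lies in their plane. -/
lemma par_plane {z v p q r : E3} (hz : z ≠ 0) (hv : cr z v ≠ 0) (e0 : ‖cr (q - p) z‖ = ‖z‖)
    (e1 : |dt (r - p) (cr z v)| = ‖cr z v‖) (e2 : |dt (r - q) (cr z v)| = ‖cr z v‖) :
    dt v (cr (q - p) z) = 0 := by
  have hn := norm_pos_iff.2 hv
  have hz' := norm_pos_iff.2 hz
  have s : dt (q - p) (cr z v) = dt (r - p) (cr z v) - dt (r - q) (cr z v) := by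
    simp only [dt, PiLp.sub_apply]; ring
  have t : dt v (cr (q - p) z) = dt (q - p) (cr z v) := by
    simp only [dt, cr0, cr1, cr2]; ring
  have b : |dt (q - p) (cr z v)| ≤ ‖cr z v‖ := by
    have i : dt z z * dt (q - p) (cr z v) = dt (cr z (cr (q - p) z)) (cr z v) := by
      simp only [dt, cr0, cr1, cr2]; ring
    have j := dt_le (cr z (cr (q - p) z)) (cr z v)
    have k := cr_le z (cr (q - p) z)
    rw [← i, abs_mul, ← nsq, abs_of_pos (by positivity : 0 < ‖z‖ ^ 2)] at j
    rw [e0] at k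
    have l : ‖z‖ ^ 2 * |dt (q - p) (cr z v)| ≤ ‖z‖ ^ 2 * ‖cr z v‖ := by
      refine j.trans ?_
      rw [sq]; exact mul_le_mul_of_nonneg_right k hn.le
    exact le_of_mul_le_mul_left l (by positivity)
  rw [t]
  rw [abs_le] at b
  rcases (abs_eq hn.le).1 e1 with g1 | g1 <;> rcases (abs_eq hn.le).1 e2 with g2 | g2 <;> linarith [b.1, b.2]

lemma cr_smul_left (t : ℝ) (u v : E3) : cr (t • u) v = t • cr u v := by
  apply ext3 <;> simp only [cr0, cr1, cr2, PiLp.smul_apply, smul_eq_mul] <;> ring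

lemma cr_self (u : E3) : cr u u = 0 := by
  apply ext3 <;> simp only [cr0, cr1, cr2, PiLp.zero_apply] <;> ring

theorem no_eight_param (p u : Fin 8 → E3) (hu : ∀ i, u i ≠ 0)
    (h : ∀ i j, i ≠ j → sInf (dset (p i) (u i) (p j) (u j)) = 1) : False := by
  have hs : ∀ i j, i ≠ j → |dt (p j - p i) (cr (u i) (u j))| = ‖cr (u i) (u j)‖ := by
    intro i j hij
    by_cases hc : cr (u i) (u j) = 0
    · simp [hc, dt]
    · have := h i j hij
      rwa [(skew_least _ _ hc).csInf_eq, div_eq_one_iff_eq (norm_pos_iff.2 hc).ne'] at this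
  have hp : ∀ i j, i ≠ j → ∀ z, z ≠ 0 → cr z (u i) = 0 → cr z (u j) = 0 →
      ‖cr (p j - p i) z‖ = ‖z‖ := by
    intro i j hij z hz h1 h2
    have := h i j hij
    rwa [(par_least _ _ (hu i) hz h1 h2).csInf_eq, div_eq_one_iff_eq (norm_pos_iff.2 hz).ne'] at this
  have four : ∀ (z : E3) (S : Finset (Fin 8)), z ≠ 0 → (∀ i ∈ S, cr z (u i) = 0) → S.card ≤ 3 := by
    intro z S hz hS
    by_contra hc
    obtain ⟨a, ha, b, hb, c, hc, d, hd, h1, h2, h3, h4, h5, h6⟩ :=
      Finset.three_lt_card.1 (not_le.1 hc)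
    exact four_par hz (hp a b h1 z hz (hS a ha) (hS b hb)) (hp a c h2 z hz (hS a ha) (hS c hc))
      (hp a d h3 z hz (hS a ha) (hS d hd)) (hp b c h4 z hz (hS b hb) (hS c hc))
      (hp b d h5 z hz (hS b hb) (hS d hd)) (hp c d h6 z hz (hS c hc) (hS d hd))
  by_cases hall : ∀ i j, i ≠ j → cr (u i) (u j) ≠ 0
  · let c : Cfg := ⟨fun i => u (Fin.ofNat 8 i), fun i => cr (u (Fin.ofNat 8 i)) (p (Fin.ofNat 8 i))⟩
    have hr : ∀ i j, c.r i j = dt (p (Fin.ofNat 8 j) - p (Fin.ofNat 8 i))
        (cr (u (Fin.ofNat 8 i)) (u (Fin.ofNat 8 j))) := by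
      intro i j
      simp only [c, Cfg.r, rr, dt, cr0, cr1, cr2, PiLp.sub_apply]; ring
    have hne : ∀ i j, i < 8 → j < 8 → i ≠ j → Fin.ofNat 8 i ≠ Fin.ofNat 8 j := by
      intro i j hi hj hij he
      have := congrArg Fin.val he
      simp only [Fin.val_ofNat] at this
      omega
    have hw : Weak c := by
      intro i j hi hj
      rw [hr]
      by_cases hij : i = j
      · subst hij; simp [c, cr_self, dt]
      · exact hs _ _ (hne i j hi hj hij)
    refine no_good c ⟨hw, fun i j hi hj hij h0 => ?_, fun i j k hi hj hk h1 h2 h3 => ?_⟩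
    · have := hw i j hi hj
      rw [h0, abs_zero] at this
      exact hall _ _ (hne i j hi hj hij) (norm_eq_zero.1 this.symm)
    · exact circuit (hall _ _ (hne i j hi hj h1)) (hall _ _ (hne i k hi hk h2))
        (hall _ _ (hne j k hj hk h3)) (hs _ _ (hne i j hi hj h1)) (hs _ _ (hne i k hi hk h2))
        (hs _ _ (hne j k hj hk h3))
  · push Not at hall
    obtain ⟨a, b, hab, hc⟩ := hall
    have e0 := hp a b hab (u a) (hu a) (cr_self _) hc
    have hN : cr (p b - p a) (u a) ≠ 0 := by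
      rw [← norm_pos_iff, e0, norm_pos_iff]; exact hu a
    obtain ⟨t, ht⟩ := par_scale (hu a) hc
    have ht0 : |t| ≠ 0 := by
      rw [abs_ne_zero]; rintro rfl; exact hu b (by simpa using ht)
    have plane : ∀ k, cr (u a) (u k) ≠ 0 → dt (u k) (cr (p b - p a) (u a)) = 0 := by
      intro k hk
      have hak : a ≠ k := by rintro rfl; exact hk (cr_self _)
      have hbk : b ≠ k := by rintro rfl; exact hk hc
      refine par_plane (hu a) hk e0 (hs a k hak) ?_
      have := hs b k hbk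
      rw [ht, cr_smul_left, norm_smul, Real.norm_eq_abs,
        show dt (p k - p b) (t • cr (u a) (u k)) = t * dt (p k - p b) (cr (u a) (u k)) by
          simp only [dt, PiLp.smul_apply, smul_eq_mul]; ring, abs_mul] at this
      exact mul_left_cancel₀ ht0 this
    have mutual_par : ∀ k l, cr (u a) (u k) ≠ 0 → cr (u a) (u l) ≠ 0 → cr (u k) (u l) = 0 := by
      intro k l hk hl
      by_contra hkl
      have hak : a ≠ k := by rintro rfl; exact hk (cr_self _)
      have hal : a ≠ l := by rintro rfl; exact hl (cr_self _)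
      have hkl' : k ≠ l := by rintro rfl; exact hkl (cr_self _)
      refine circuit hk hl hkl (hs a k hak) (hs a l hal) (hs k l hkl')
        (det_zero_of_perp hN ?_ (plane k hk) (plane l hl))
      simp only [dt, cr0, cr1, cr2]; ring
    have c1 := four (u a) (Finset.univ.filter fun k => cr (u a) (u k) = 0) (hu a)
      (fun i hi => (Finset.mem_filter.1 hi).2)
    have c2 : (Finset.univ.filter fun k => ¬ cr (u a) (u k) = 0).card ≤ 3 := by
      rcases (Finset.univ.filter fun k => ¬ cr (u a) (u k) = 0).eq_empty_or_nonempty with he | ⟨k, hk⟩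
      · rw [he]; simp
      · exact four (u k) _ (hu k) fun i hi =>
          mutual_par k i (Finset.mem_filter.1 hk).2 (Finset.mem_filter.1 hi).2
    have c3 := Finset.card_filter_add_card_filter_not (s := (Finset.univ : Finset (Fin 8)))
      (fun k => cr (u a) (u k) = 0)
    simp only [Finset.card_univ, Fintype.card_fin] at c3
    omega

theorem upper (k : ℕ) (ℓ : Fin k → AffineSubspace ℝ E3) (h1 : ∀ i, Module.finrank ℝ (ℓ i).direction = 1)
    (h2 : ∀ i j, i ≠ j → sInf {d | ∃ x ∈ ℓ i, ∃ y ∈ ℓ j, d = dist x y} = 1) : k ≤ 7 := by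
  by_contra hk
  have h8 : 8 ≤ k := by omega
  choose p u hu hm using fun i => line_param (ℓ i) (h1 i)
  refine no_eight_param (fun i => p (Fin.castLE h8 i)) (fun i => u (Fin.castLE h8 i)) (fun i => hu _) ?_
  intro i j hij
  rw [← dset_eq (hm _) (hm _)]
  exact h2 _ _ fun e => hij (Fin.castLE_injective h8 e)

end Pool.Agent.MP_e7f0cc_co
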